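import Pool.Agent.MP_3a8a48_gt.Cov.Stm

section
set_option autoImplicit false

namespace Pool.Agent.MP_3a8a48_gt.Cov

open MeasureTheory Set Metric
open scoped RealInnerProductSpace

theorem near_Surj {m : ℕ} {K : Set (E m)} {P : E m →L[ℝ] E m} (hK : CK K) (hP : Prj P) {t : ℝ}
    (ht : 0 < t) {W : E m} (h : W ∈ cthickening t (P '' K)) :
    ∃ k ∈ K, ‖P W - P k‖ ^ 2 + ‖W - P W‖ ^ 2 ≤ t ^ 2 := by
  rw [(hK.image P).cpt.cthickening_eq_biUnion_closedBall ht.le] at h
  simp only [mem_iUnion, mem_closedBall, dist_eq_norm] at h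
  obtain ⟨_, ⟨k, hk, rfl⟩, h⟩ := h
  refine ⟨k, hk, ?_⟩
  have h1 := hP.norm_sq (W - P k)
  rw [map_sub, hP.idem, sub_sub_sub_cancel_right] at h1
  rw [← h1]
  exact pow_le_pow_left₀ (norm_nonneg _) h 2

theorem crit_Surj {m : ℕ} {ψ : E m → ℝ} {P : E m →L[ℝ] E m} (hP : Prj P) {η x0 a Y : E m}
    {c : ℝ} (hg : HasFDerivAt ψ (innerSL ℝ a) (P x0 + η))
    (h : ∀ x, ψ (P x0 + η) + c / 2 * ‖x0‖ ^ 2 - ⟪Y, x0⟫ ≤ ψ (P x + η) + c / 2 * ‖x‖ ^ 2 - ⟪Y, x⟫) :
    P a + c • x0 = Y := by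
  have d1 : HasFDerivAt (fun x => ψ (P x + η)) ((innerSL ℝ a).comp P) x0 :=
    hg.comp x0 (P.hasFDerivAt.add_const η)
  have d2 := ((hasStrictFDerivAt_norm_sq x0).hasFDerivAt).const_mul (c / 2)
  have d3 := (d1.add d2).sub (innerSL ℝ Y).hasFDerivAt
  have d4 := IsLocalMin.hasFDerivAt_eq_zero (Filter.Eventually.of_forall h) d3
  refine ext_inner_right ℝ fun v => ?_
  have := congrArg (fun L : E m →L[ℝ] ℝ => L v) d4
  simp only [sub_apply, add_apply, ContinuousLinearMap.comp_apply, innerSL_apply_apply,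
    smul_apply, zero_apply, smul_eq_mul, nsmul_eq_mul] at this
  rw [inner_add_left, real_inner_smul_left, hP.symm]
  push_cast at this
  linarith

theorem sSurj : SSurj := by
  intro m K δ ψ g H P t hK hS hP ht X hX
  obtain ⟨ε, ε0, hε⟩ := nhds_basis_closedBall.mem_iff.1 (mem_interior_iff_mem_nhds.1 hX)
  set η : E m := t⁻¹ • (X - P X) with hη
  have e1 : X - P X = t • η := by rw [hη, smul_inv_smul₀ ht.ne']
  have e2 : P η = 0 := by rw [hη, map_smul, map_sub, hP.idem, sub_self, smul_zero]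
  clear_value η
  have n1 : ‖η‖ ≤ 1 := by
    obtain ⟨k, -, h⟩ := near_Surj hK hP ht (hε (mem_closedBall_self ε0.le))
    rw [e1, norm_smul, Real.norm_of_nonneg ht.le] at h
    have : t * ‖η‖ ≤ t :=
      le_of_pow_le_pow_left₀ two_ne_zero ht.le (by nlinarith [sq_nonneg ‖P X - P k‖])
    nlinarith
  have n2 : ‖η‖ < 1 := by
    obtain ⟨k, -, h⟩ := near_Surj hK hP ht (hε (show X + ε • η ∈ closedBall X ε by
      rw [mem_closedBall, dist_eq_norm, add_sub_cancel_left, norm_smul, Real.norm_of_nonneg ε0.le]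
      nlinarith))
    have e : X + ε • η - P (X + ε • η) = (t + ε) • η := by
      rw [map_add, map_smul, e2, smul_zero, add_zero, add_smul, ← e1]; abel
    rw [e, norm_smul, Real.norm_of_nonneg (by positivity)] at h
    have : (t + ε) * ‖η‖ ≤ t :=
      le_of_pow_le_pow_left₀ two_ne_zero ht.le (by nlinarith [sq_nonneg ‖P (X + ε • η) - P k‖])
    nlinarith
  have n3 : 0 < 1 - ‖η‖ ^ 2 := by nlinarith [norm_nonneg η]
  set r := √(1 - ‖η‖ ^ 2) with hr
  have r0 : 0 < r := Real.sqrt_pos.2 n3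
  have r2 : r ^ 2 = 1 - ‖η‖ ^ 2 := Real.sq_sqrt n3.le
  have hC : ∀ u, P u = u → ∃ k ∈ K, ⟪P X, u⟫ + ε * ‖u‖ ≤ ⟪k, u⟫ + t * r * ‖u‖ := by
    intro u hu
    by_cases u0 : u = 0
    · obtain ⟨k, hk⟩ := hK.ne
      exact ⟨k, hk, by simp [u0]⟩
    have un : 0 < ‖u‖ := norm_pos_iff.2 u0
    obtain ⟨k, hk, h⟩ := near_Surj hK hP ht (hε (show X + (ε / ‖u‖) • u ∈ closedBall X ε by
      rw [mem_closedBall, dist_eq_norm, add_sub_cancel_left, norm_smul,
        Real.norm_of_nonneg (by positivity), div_mul_cancel₀ _ un.ne']))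
    rw [map_add, map_smul, hu, add_sub_add_right_eq_sub, e1, norm_smul,
      Real.norm_of_nonneg ht.le] at h
    have h1 : ‖P X + (ε / ‖u‖) • u - P k‖ ≤ t * r :=
      le_of_pow_le_pow_left₀ two_ne_zero (by positivity) (by rw [mul_pow, r2]; nlinarith)
    have h2 := real_inner_le_norm (P X + (ε / ‖u‖) • u - P k) u
    rw [inner_sub_left, inner_add_left, real_inner_smul_left, real_inner_self_eq_norm_sq,
      hP.symm k, hu, show ε / ‖u‖ * ‖u‖ ^ 2 = ε * ‖u‖ by field_simp] at h2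
    exact ⟨k, hk, by nlinarith⟩
  obtain ⟨R, hR⟩ := hK.cpt.isBounded.exists_norm_le
  let h : ℝ → ℝ := fun s => s ^ 2 / 2 - (max (s - r) 0) ^ 2 / 2
  have h1 : ∀ s, s ≤ r → h s = s ^ 2 / 2 := fun s hs => by
    simp only [h, max_eq_right (sub_nonpos.2 hs)]; ring
  have h2 : ∀ s, r ≤ s → h s = r * s - r ^ 2 / 2 := fun s hs => by
    simp only [h, max_eq_left (sub_nonneg.2 hs)]; ring
  let Φ : E m → ℝ := fun x => ψ (P x + η) + t * h ‖x‖ - ⟪P X, x⟫
  have cψ : Continuous ψ := continuous_iff_continuousAt.2 fun y => (hS.grad y).continuousAt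
  have cΦ : Continuous Φ := by simp only [Φ, h]; fun_prop
  have low : ∀ x, min ε (t * r) * ‖x‖ + -(R + δ + t * r ^ 2 / 2) ≤ Φ x := by
    intro x
    obtain ⟨k, hk, a1⟩ := hC (P x) (hP.idem x)
    have a2 := hS.low (P x + η) k hk
    have a3 : r * ‖x‖ - r ^ 2 / 2 ≤ h ‖x‖ := by
      rcases le_total ‖x‖ r with q | q
      · rw [h1 _ q]; nlinarith [sq_nonneg (‖x‖ - r)]
      · rw [h2 _ q]
    have a4 : ⟪P X, P x⟫ = ⟪P X, x⟫ := by rw [← hP.symm, hP.idem]
    have a5 : ‖P x‖ ≤ ‖x‖ := le_of_pow_le_pow_left₀ two_ne_zero (norm_nonneg _)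
      (by nlinarith [hP.norm_sq x, sq_nonneg ‖x - P x‖])
    have a6 : -R ≤ ⟪k, η⟫ := by
      have := abs_real_inner_le_norm k η
      have := neg_abs_le ⟪k, η⟫
      nlinarith [hR k hk, norm_nonneg k, norm_nonneg η]
    have a7 := mul_le_mul_of_nonneg_right (min_le_left ε (t * r)) (norm_nonneg (P x))
    have a8 := mul_le_mul_of_nonneg_right (min_le_right ε (t * r)) (sub_nonneg.2 a5)
    have a9 := mul_le_mul_of_nonneg_left a3 ht.le
    rw [inner_add_right] at a2
    simp only [Φ]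
    linarith
  obtain ⟨x0, hx0⟩ := cΦ.exists_forall_le (Filter.tendsto_atTop_mono low
    (Filter.tendsto_atTop_add_const_right _ _ (tendsto_norm_cocompact_atTop.const_mul_atTop
      (lt_min ε0 (mul_pos ht r0)))))
  have key : ∀ l c : ℝ, 0 < l → (∀ s, 0 ≤ s → h s ≤ l * s ^ 2 / 2 + c) →
      h ‖x0‖ = l * ‖x0‖ ^ 2 / 2 + c → P x0 = x0 ∧ P (g (x0 + η)) + t • (η + l • x0) = X := by
    intro l c l0 b1 b2
    have b3 := crit_Surj hP (c := t * l) (Y := P X) (hS.grad (P x0 + η)) fun x => by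
      have := hx0 x
      have := mul_le_mul_of_nonneg_left (b1 _ (norm_nonneg x)) ht.le
      simp only [Φ, b2] at *
      linarith
    have b4 : P x0 = x0 := by
      have := congrArg P b3
      rw [map_add, hP.idem, hP.idem, map_smul, ← b3] at this
      exact smul_right_injective _ (mul_pos ht l0).ne' (add_left_cancel this)
    rw [b4] at b3
    refine ⟨b4, ?_⟩
    rw [smul_add, smul_smul t l, ← e1, add_left_comm, b3, sub_add_cancel]
  have hy : P x0 = x0 → P (x0 + η) = x0 ∧ ‖x0 + η‖ ^ 2 = ‖x0‖ ^ 2 + ‖η‖ ^ 2 := fun b => by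
    have e : P (x0 + η) = x0 := by rw [map_add, b, e2, add_zero]
    refine ⟨e, ?_⟩
    rw [hP.norm_sq, e, add_sub_cancel_left]
  rcases le_or_gt ‖x0‖ r with q | q
  · obtain ⟨b1, b2⟩ := key 1 0 one_pos (fun s _ => by
      simp only [h]; nlinarith [sq_nonneg (max (s - r) 0)]) (by rw [h1 _ q]; ring)
    refine Or.inl ⟨x0 + η, ?_, by rw [Fi, ← b2, one_smul, add_comm η]⟩
    rw [mem_closedBall_zero_iff]
    refine le_of_pow_le_pow_left₀ two_ne_zero zero_le_one ?_
    rw [(hy b1).2]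
    nlinarith [norm_nonneg x0]
  · have s0 : 0 < ‖x0‖ := r0.trans q
    obtain ⟨b1, b2⟩ := key (r / ‖x0‖) (r * ‖x0‖ / 2 - r ^ 2 / 2) (by positivity) (fun s hs => by
      obtain ⟨l, hl⟩ : ∃ l, l = r / ‖x0‖ := ⟨_, rfl⟩
      have hl' : r = l * ‖x0‖ := by rw [hl, div_mul_cancel₀ _ s0.ne']
      have l0 : 0 < l := hl ▸ div_pos r0 s0
      have l1 : l < 1 := hl ▸ (div_lt_one s0).2 q
      rw [← hl]
      rcases le_total s r with w | w
      · have : s ^ 2 ≤ r * ‖x0‖ := by nlinarith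
        rw [h1 _ w]
        nlinarith [mul_le_mul_of_nonneg_left this (sub_nonneg.2 l1.le)]
      · rw [h2 _ w]
        nlinarith [mul_nonneg l0.le (sq_nonneg (s - ‖x0‖))]) (by rw [h2 _ q.le]; field_simp; ring)
    obtain ⟨c1, c2⟩ := hy b1
    refine Or.inr ⟨x0 + η, ⟨by rwa [c1, add_sub_cancel_left], ?_⟩, ?_⟩
    · refine lt_of_pow_lt_pow_left₀ 2 (norm_nonneg _) ?_
      rw [c2]
      nlinarith
    · rw [Fo, sc, c1, add_sub_cancel_left, ← r2, ← div_pow, Real.sqrt_sq (by positivity), b2]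

end Pool.Agent.MP_3a8a48_gt.Cov

end

section
set_option autoImplicit false

namespace Pool.Agent.MP_3a8a48_gt.Cov

open MeasureTheory Set Metric
open scoped RealInnerProductSpace

theorem lim_Nec {m : ℕ} {p : ℝ → ℝ} {a : ℕ → ℝ} (h : Pl m p a) {k : ℕ} (hk : k ≤ m)
    (h0 : ∀ j, j < k → a j = 0) :
    Filter.Tendsto (fun t => p t / t ^ k) (nhdsWithin 0 (Ioi 0)) (nhds (a k)) := by
  have hc : Continuous fun t : ℝ => ∑ j ∈ Finset.range (m + 1), a j * t ^ (j - k) := by fun_prop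
  have h1 : (∑ j ∈ Finset.range (m + 1), a j * (0 : ℝ) ^ (j - k)) = a k := by
    rw [Finset.sum_eq_single k]
    · simp
    · intro j _ hj
      rcases lt_or_gt_of_ne hj with h | h
      · simp [h0 j h]
      · rw [zero_pow (by omega), mul_zero]
    · intro hk'
      exact absurd (Finset.mem_range.2 (by omega)) hk'
  have h2 := (hc.tendsto 0).mono_left (nhdsWithin_le_nhds (s := Ioi 0))
  rw [h1] at h2
  refine h2.congr' ?_
  filter_upwards [self_mem_nhdsWithin] with t ht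
  have ht' : (0 : ℝ) < t := ht
  rw [h t ht', Finset.sum_div]
  refine Finset.sum_congr rfl fun j _ => ?_
  by_cases hj : j < k
  · simp [h0 j hj]
  · rw [pow_sub₀ _ ht'.ne' (by omega), mul_div_assoc, div_eq_mul_inv]

theorem ev_Nec : ∀ᶠ t : ℝ in nhdsWithin 0 (Ioi 0), 0 < t ∧ t ≤ 1 := by
  filter_upwards [Ioc_mem_nhdsGT (zero_lt_one' ℝ)] with t ht using ht

theorem zero_Nec {m d : ℕ} {p : ℝ → ℝ} {a : ℕ → ℝ} (h : Pl m p a) {C : ℝ}
    (hp : ∀ t, 0 < t → t ≤ 1 → 0 ≤ p t ∧ p t ≤ C * t ^ d) :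
    ∀ k, k < d → k ≤ m → a k = 0 := by
  intro k
  induction k using Nat.strong_induction_on with
  | _ k ih =>
    intro hd hk
    have h1 := lim_Nec h hk fun j hj => ih j hj (by omega) (by omega)
    have hc : Continuous fun t : ℝ => C * t ^ (d - k) := by fun_prop
    have h2 := (hc.tendsto 0).mono_left (nhdsWithin_le_nhds (s := Ioi 0))
    rw [zero_pow (by omega), mul_zero] at h2
    refine le_antisymm (le_of_tendsto_of_tendsto h1 h2 ?_) (ge_of_tendsto h1 ?_)
    · filter_upwards [ev_Nec] with t ht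
      rw [div_le_iff₀ (pow_pos ht.1 k), mul_assoc, ← pow_add, Nat.sub_add_cancel hd.le]
      exact (hp t ht.1 ht.2).2
    · filter_upwards [ev_Nec] with t ht
      exact div_nonneg (hp t ht.1 ht.2).1 (pow_pos ht.1 k).le

theorem low_Nec {m d : ℕ} {p : ℝ → ℝ} {a : ℕ → ℝ} (h : Pl m p a) (hd : d ≤ m) {c : ℝ}
    (h0 : ∀ j, j < d → a j = 0) (hp : ∀ t, 0 < t → t ≤ 1 → c * t ^ d ≤ p t) : c ≤ a d := by
  refine ge_of_tendsto (lim_Nec h hd h0) ?_
  filter_upwards [ev_Nec] with t ht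
  rw [le_div_iff₀ (pow_pos ht.1 d)]
  exact hp t ht.1 ht.2

/-- Boxes. -/
def box_Nec {m : ℕ} (lo hi : Fin m → ℝ) : Set (E m) := {x | ∀ i, x i ∈ Icc (lo i) (hi i)}

theorem vol_Nec {m : ℕ} (lo hi : Fin m → ℝ) :
    volume (box_Nec lo hi) = ∏ i, ENNReal.ofReal (hi i - lo i) := by
  have h : box_Nec lo hi = (WithLp.ofLp : E m → Fin m → ℝ) ⁻¹' Icc lo hi := by
    ext x
    simp only [box_Nec, mem_ofPred_eq, mem_preimage, mem_Icc, Pi.le_def, forall_and]
  rw [h, (PiLp.volume_preserving_ofLp (Fin m)).measure_preimage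
    measurableSet_Icc.nullMeasurableSet, Real.volume_Icc_pi]

theorem vol_ne_Nec {m : ℕ} (lo hi : Fin m → ℝ) : volume (box_Nec lo hi) ≠ ⊤ := by
  rw [vol_Nec]
  exact ENNReal.prod_ne_top fun _ _ => ENNReal.ofReal_ne_top

theorem volr_Nec {m : ℕ} {lo hi : Fin m → ℝ} (h : ∀ i, lo i ≤ hi i) :
    (volume (box_Nec lo hi)).toReal = ∏ i, (hi i - lo i) := by
  rw [vol_Nec, ENNReal.toReal_prod]
  exact Finset.prod_congr rfl fun i _ => ENNReal.toReal_ofReal (sub_nonneg.2 (h i))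

/-- Coordinate cubes. -/
def cube_Nec {m : ℕ} (J : Finset (Fin m)) : Set (E m) :=
  box_Nec (fun _ => 0) fun i => if i ∈ J then 1 else 0

theorem ck_Nec {m : ℕ} (J : Finset (Fin m)) : CK (cube_Nec J) := by
  refine ⟨?_, ?_, ⟨0, fun i => ?_⟩⟩
  · have h : cube_Nec J = (WithLp.toLp 2 : (Fin m → ℝ) → E m) ''
        Icc (fun _ => 0) fun i => if i ∈ J then 1 else 0 := by
      ext x
      constructor
      · intro hx
        exact ⟨x.ofLp, ⟨fun i => (hx i).1, fun i => (hx i).2⟩, rfl⟩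
      · rintro ⟨y, hy, rfl⟩ i
        exact ⟨hy.1 i, hy.2 i⟩
    rw [h]
    exact isCompact_Icc.image (PiLp.continuous_toLp 2 _)
  · intro x hx y hy a b ha hb hab i
    exact convex_Icc _ _ (hx i) (hy i) ha hb hab
  · by_cases h : i ∈ J <;> simp [h]

theorem image_Nec {m : ℕ} (S I : Finset (Fin m)) : pS S '' cube_Nec I = cube_Nec (I ∩ S) := by
  ext x
  constructor
  · rintro ⟨y, hy, rfl⟩ i
    have := hy i
    rw [pS_apply]
    by_cases h : i ∈ S <;> by_cases h' : i ∈ I <;> simp_all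
  · intro hx
    refine ⟨x, fun i => ?_, ?_⟩
    · have := hx i
      by_cases h : i ∈ S <;> by_cases h' : i ∈ I <;> simp_all
    · ext i
      have := hx i
      rw [pS_apply]
      by_cases h : i ∈ S
      · simp [h]
      · simp only [h, Finset.mem_inter, and_false, if_false, mem_Icc] at this ⊢
        exact le_antisymm this.1 this.2

theorem sub_Nec {m : ℕ} (J : Finset (Fin m)) {t : ℝ} (ht : 0 < t) :
    cthickening t (cube_Nec J) ⊆
      box_Nec (fun _ => -t) fun i => (if i ∈ J then 1 else 0) + t := by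
  rw [(ck_Nec J).cpt.cthickening_eq_biUnion_closedBall ht.le]
  intro x hx i
  simp only [mem_iUnion, mem_closedBall] at hx
  obtain ⟨y, hy, hxy⟩ := hx
  have h1 := (PiLp.dist_apply_le x y i).trans hxy
  rw [Real.dist_eq, abs_le] at h1
  have h2 := hy i
  exact ⟨by linarith [h2.1, h1.1], by linarith [h2.2, h1.2]⟩

theorem sup_Nec {m : ℕ} (J : Finset (Fin m)) {t : ℝ} (ht : 0 < t) :
    box_Nec (fun _ => 0) (fun i => if i ∈ J then 1 else t / (m + 1)) ⊆
      cthickening t (cube_Nec J) := by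
  intro x hx
  refine mem_cthickening_of_dist_le x (pS J x) t _ (fun i => ?_) ?_
  · have := hx i
    rw [pS_apply]
    by_cases h : i ∈ J <;> simp_all
  · have hm : (0 : ℝ) < m + 1 := by positivity
    have h1 : ∀ i, dist (x i) (pS J x i) ^ 2 ≤ (t / (m + 1)) ^ 2 := by
      intro i
      have := hx i
      rw [pS_apply]
      by_cases h : i ∈ J
      · simp only [h, if_true, dist_self]
        rw [zero_pow two_ne_zero]
        positivity
      · simp only [h, if_false, mem_Icc] at this ⊢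
        rw [Real.dist_eq, sub_zero, abs_of_nonneg this.1]
        exact pow_le_pow_left₀ this.1 this.2 2
    rw [EuclideanSpace.dist_eq]
    refine Real.sqrt_le_iff.2 ⟨ht.le, (Finset.sum_le_sum fun i _ => h1 i).trans ?_⟩
    rw [Finset.sum_const, Finset.card_univ, Fintype.card_fin, nsmul_eq_mul, div_pow,
      ← mul_div_assoc, div_le_iff₀ (by positivity)]
    have h2 : (0 : ℝ) ≤ m := by positivity
    nlinarith [mul_nonneg (sq_nonneg t) h2, mul_nonneg (sq_nonneg t) (sq_nonneg (m : ℝ))]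

theorem prod_Nec {m : ℕ} (J : Finset (Fin m)) (u v : ℝ) :
    ∏ i, (if i ∈ J then u else v) = u ^ J.card * v ^ (m - J.card) := by
  rw [Finset.prod_ite, Finset.prod_const, Finset.prod_const]
  congr 2
  · congr 1
    ext i
    simp
  · have : (Finset.univ.filter fun i => ¬ i ∈ J) = Jᶜ := by
      ext i
      simp
    rw [this, Finset.card_compl, Fintype.card_fin]

theorem up_Nec {m : ℕ} (J : Finset (Fin m)) (t : ℝ) (ht : 0 < t) (ht1 : t ≤ 1) :
    0 ≤ pv (cube_Nec J) t ∧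
      pv (cube_Nec J) t ≤ 3 ^ J.card * 2 ^ (m - J.card) * t ^ (m - J.card) := by
  refine ⟨ENNReal.toReal_nonneg, ?_⟩
  refine (ENNReal.toReal_mono (vol_ne_Nec _ _) (measure_mono (sub_Nec J ht))).trans ?_
  rw [volr_Nec fun i => by split_ifs <;> linarith, mul_assoc, ← mul_pow, ← prod_Nec]
  refine Finset.prod_le_prod (fun i _ => ?_) fun i _ => ?_ <;> split_ifs <;> linarith

theorem down_Nec {m : ℕ} (J : Finset (Fin m)) (t : ℝ) (ht : 0 < t) :
    (1 / (m + 1) : ℝ) ^ (m - J.card) * t ^ (m - J.card) ≤ pv (cube_Nec J) t := by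
  refine le_trans ?_ (ENNReal.toReal_mono
    (ne_top_of_le_ne_top (vol_ne_Nec _ _) (measure_mono (sub_Nec J ht)))
    (measure_mono (sup_Nec J ht)))
  rw [volr_Nec fun i => by split_ifs <;> positivity]
  simp only [sub_zero]
  rw [prod_Nec, one_pow, one_mul, ← mul_pow]
  exact le_of_eq (by congr 1; ring)

theorem sNec (hS : SStein) : SNec := by
  intro m n w hn hK I hI
  choose a ha _ using fun J : Finset (Fin m) => hS m (cube_Nec J) (ck_Nec J)
  have hz : ∀ J : Finset (Fin m), ∀ k, k < m - J.card → a J k = 0 := fun J k hk =>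
    zero_Nec (ha J) (up_Nec J) k hk (by omega)
  have hpos : 0 < a I (m - n) := by
    have h1 := low_Nec (ha I) (Nat.sub_le m I.card) (hz I) fun t ht _ => down_Nec I t ht
    rw [hI] at h1
    exact lt_of_lt_of_le (by positivity) h1
  have h1 := hK _ (ck_Nec I) (a I) (fun S => a (I ∩ S)) (ha I) fun S => by
    rw [image_Nec]
    exact ha _
  have h2 : ∑ S, w S * a (I ∩ S) (m - n) = (∑ S with I ⊆ S, w S) * a I (m - n) := by
    rw [Finset.sum_mul, Finset.sum_filter]
    refine Finset.sum_congr rfl fun S _ => ?_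
    by_cases h : I ⊆ S
    · rw [if_pos h, Finset.inter_eq_left.2 h]
    · have h3 : (I ∩ S).card < I.card := Finset.card_lt_card
        ⟨Finset.inter_subset_left, fun h4 => h fun i hi => (Finset.mem_inter.1 (h4 hi)).2⟩
      rw [if_neg h, hz _ _ (by omega), mul_zero]
  rw [h2] at h1
  by_contra h3
  nlinarith [not_le.1 h3]

end Pool.Agent.MP_3a8a48_gt.Cov

end

section
set_option autoImplicit false

namespace Pool.Agent.MP_3a8a48_gt.Cov

open MeasureTheory Set Metric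
open scoped RealInnerProductSpace

theorem norm_le_Ext {m : ℕ} {P : E m →L[ℝ] E m} (h : Prj P) (v : E m) : ‖P v‖ ≤ ‖v‖ := by
  have h1 := h.norm_sq v
  have h2 : ‖P v‖ ^ 2 ≤ ‖v‖ ^ 2 := by nlinarith [sq_nonneg ‖v - P v‖]
  exact (pow_le_pow_iff_left₀ (norm_nonneg _) (norm_nonneg _) two_ne_zero).1 h2

theorem ck_thick_Ext {m : ℕ} {K : Set (E m)} (h : CK K) (e : ℝ) : CK (cthickening e K) :=
  ⟨h.cpt.cthickening, h.conv.cthickening e, h.ne.mono (self_subset_cthickening K)⟩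

theorem int_thick_Ext {m : ℕ} {K : Set (E m)} (h : CK K) {e : ℝ} (he : 0 < e) :
    (interior (cthickening e K)).Nonempty :=
  h.ne.mono ((self_subset_thickening he K).trans (thickening_subset_interior_cthickening e K))

theorem image_thick_Ext {m : ℕ} {K : Set (E m)} (h : CK K) {P : E m →L[ℝ] E m} (hP : Prj P)
    {e : ℝ} (he : 0 ≤ e) : P '' cthickening e K ⊆ cthickening e (P '' K) := by
  rintro _ ⟨x, hx, rfl⟩
  rw [h.cpt.cthickening_eq_biUnion_closedBall he] at hx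
  simp only [mem_iUnion, mem_closedBall] at hx
  obtain ⟨y, hy, hxy⟩ := hx
  refine mem_cthickening_of_dist_le _ (P y) e _ ⟨y, hy, rfl⟩ ?_
  rw [dist_eq_norm] at hxy ⊢
  rw [← map_sub]
  exact (norm_le_Ext hP _).trans hxy

theorem pv_le_Ext {m : ℕ} {A B : Set (E m)} (hB : IsCompact B) {s t : ℝ}
    (h : cthickening s A ⊆ cthickening t B) : pv A s ≤ pv B t :=
  ENNReal.toReal_mono (hB.cthickening (r := t)).measure_lt_top.ne (measure_mono h)

theorem pl_tendsto_Ext {m : ℕ} {p : ℝ → ℝ} {c : ℕ → ℝ} (h : Pl m p c) {t : ℝ} (ht : 0 ≤ t) :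
    Filter.Tendsto (fun e => p (t + e)) (nhdsWithin 0 (Ioi 0))
      (nhds (∑ k ∈ Finset.range (m + 1), c k * t ^ k)) := by
  have h1 : Continuous fun e : ℝ => ∑ k ∈ Finset.range (m + 1), c k * (t + e) ^ k := by
    fun_prop
  have h2 := (h1.tendsto 0).mono_left (nhdsWithin_le_nhds (s := Ioi 0))
  rw [add_zero] at h2
  refine h2.congr' ?_
  filter_upwards [self_mem_nhdsWithin] with e he
  exact (h (t + e) (add_pos_of_nonneg_of_pos ht he)).symm

theorem pv_tendsto_Ext {m : ℕ} {K : Set (E m)} (h : CK K) {P : E m →L[ℝ] E m} (hP : Prj P)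
    {c : ℕ → ℝ} (hc : Pl m (pv (P '' K)) c) {t : ℝ} (ht : 0 < t) :
    Filter.Tendsto (fun e => pv (P '' cthickening e K) t) (nhdsWithin 0 (Ioi 0))
      (nhds (pv (P '' K) t)) := by
  have h1 := pl_tendsto_Ext hc ht.le
  rw [← hc t ht] at h1
  refine tendsto_of_tendsto_of_tendsto_of_le_of_le' tendsto_const_nhds h1 ?_ ?_
  · refine Filter.Eventually.of_forall fun e => ?_
    exact pv_le_Ext ((ck_thick_Ext h e).image P).cpt
      (cthickening_subset_of_subset t (image_mono (self_subset_cthickening K)))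
  · filter_upwards [self_mem_nhdsWithin] with e he
    exact pv_le_Ext (h.image P).cpt
      ((cthickening_subset_of_subset t (image_thick_Ext h hP (le_of_lt he))).trans
        (cthickening_cthickening_subset ht.le (le_of_lt he) _))

theorem one_image_Ext {m : ℕ} (K : Set (E m)) : (1 : E m →L[ℝ] E m) '' K = K := by
  ext x
  simp

theorem sExt (hC : SCf) (hS : SStein) : SExt := by
  intro m ι _ P w k hk hP hall K hK a b ha hb
  obtain ⟨L, hL⟩ := hC m
  have hpos : ∀ j : Fin (m + 1), (0 : ℝ) < ((j : ℕ) : ℝ) + 1 := fun j => by positivity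
  have key : ∀ (Q : E m →L[ℝ] E m) (c : ℕ → ℝ), Prj Q → Pl m (pv (Q '' K)) c →
      Filter.Tendsto (fun e => ∑ j, L k j * pv (Q '' cthickening e K) (((j : ℕ) : ℝ) + 1))
        (nhdsWithin 0 (Ioi 0)) (nhds (c k)) := by
    intro Q c hQ hc
    rw [hL _ c hc k hk]
    exact tendsto_finsetSum _ fun j _ => (pv_tendsto_Ext hK hQ hc (hpos j)).const_mul _
  have h1 := key 1 a prj_one (by rwa [one_image_Ext])
  simp only [one_image_Ext] at h1
  have h2 := tendsto_finsetSum Finset.univ fun i _ =>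
    (key (P i) (b i) (hP i) (hb i)).const_mul (w i)
  refine le_of_tendsto_of_tendsto h1 h2 ?_
  filter_upwards [self_mem_nhdsWithin] with e he
  have hKe := ck_thick_Ext hK e
  obtain ⟨a', ha', -⟩ := hS m _ hKe
  choose b' hb' using fun i => hS m _ (hKe.image (P i))
  have h3 := hall _ hKe (int_thick_Ext hK he) a' b' ha' fun i => (hb' i).1
  rw [hL _ a' ha' k hk] at h3
  refine h3.trans_eq (Finset.sum_congr rfl fun i _ => ?_)
  rw [hL _ (b' i) (hb' i).1 k hk]

theorem pl_int_Ext (hC : SCf) {m : ℕ} (A : Set (E m)) (hA : MeasurableSet A) (D : E m → ℝ → ℝ)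
    (hD : ∀ y ∈ A, ∃ c : ℕ → ℝ, Pl m (D y) c)
    (hI : ∀ t : ℝ, 0 < t → IntegrableOn (fun y => D y t) A) :
    ∃ c : ℕ → ℝ, Pl m (fun t => ∫ y in A, D y t) c := by
  obtain ⟨L, hL⟩ := hC m
  have hpos : ∀ j : Fin (m + 1), (0 : ℝ) < ((j : ℕ) : ℝ) + 1 := fun j => by positivity
  refine ⟨fun k => ∑ j, L k j * ∫ y in A, D y (((j : ℕ) : ℝ) + 1), fun t ht => ?_⟩
  have h1 : ∫ y in A, D y t = ∫ y in A, ∑ k ∈ Finset.range (m + 1),
      (∑ j, L k j * D y (((j : ℕ) : ℝ) + 1)) * t ^ k := by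
    refine setIntegral_congr_fun hA fun y hy => ?_
    obtain ⟨c, hc⟩ := hD y hy
    rw [hc t ht]
    refine Finset.sum_congr rfl fun k hk => ?_
    rw [hL _ c hc k (Nat.lt_succ_iff.1 (Finset.mem_range.1 hk))]
  have h2 : ∀ (k : ℕ) (j : Fin (m + 1)),
      Integrable (fun y => L k j * D y (((j : ℕ) : ℝ) + 1)) (volume.restrict A) :=
    fun k j => (hI _ (hpos j)).const_mul _
  simp only []
  rw [h1, integral_finsetSum _ fun k _ => (integrable_finsetSum _ fun j _ => h2 k j).mul_const _]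
  refine Finset.sum_congr rfl fun k _ => ?_
  rw [integral_mul_const, integral_finsetSum _ fun j _ => h2 k j]
  simp only [integral_const_mul]

theorem sStein (hC : SCf) (hM : SSmooth) (hT : STot) : SStein := by
  intro m K hK
  obtain ⟨ψ, g, H, hs⟩ := hM m K hK 1 one_pos
  obtain ⟨h1, h2, h3, h4⟩ := hT m K 1 ψ g H 1 hK hs prj_one
  obtain ⟨c, hc⟩ := pl_int_Ext hC (closedBall (0 : E m) 1) measurableSet_closedBall
    (fun y t => Di 1 (H y) t) (fun y _ => (h1 y).imp fun _ h => h.2) fun t ht => (h4 t ht).1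
  obtain ⟨d, hd⟩ := pl_int_Ext hC (Out (1 : E m →L[ℝ] E m)) h3
    (fun y t => Do 1 g y t) (fun y hy => (h2 y hy).imp fun _ h => h.2) fun t ht => (h4 t ht).2.1
  have ha : Pl m (pv K) fun k => c k + d k := by
    intro t ht
    have h5 := (h4 t ht).2.2.2
    rw [one_image_Ext] at h5
    have h6 := hc t ht
    have h7 := hd t ht
    simp only [] at h6 h7
    rw [h5, h6, h7, ← Finset.sum_add_distrib]
    exact Finset.sum_congr rfl fun k _ => by ring
  refine ⟨_, ha, ?_⟩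
  have h8 := pl_tendsto_Ext ha le_rfl
  simp only [zero_add] at h8
  have h9 : ∑ k ∈ Finset.range (m + 1), (c k + d k) * (0 : ℝ) ^ k = c 0 + d 0 := by
    rw [Finset.sum_range_succ']
    simp
  rw [h9] at h8
  have h10 := (ENNReal.tendsto_toReal (hK.cpt.measure_lt_top (μ := volume)).ne).comp
    (tendsto_measure_cthickening_of_isCompact (μ := volume) hK.cpt)
  have h11 : pv K 0 = (volume K).toReal := by
    rw [pv, cthickening_zero, hK.cpt.isClosed.closure_eq]
  rw [h11]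
  exact tendsto_nhds_unique (h10.mono_left nhdsWithin_le_nhds) h8

end Pool.Agent.MP_3a8a48_gt.Cov

end
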