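import Pool.Agent.MP_3a8a48_gt.Cov.PartA
import Pool.Agent.MP_3a8a48_gt.Cov.PartB

section
/-! The volume of the parallel body as a sum of two integrals, and the main inequality. -/

set_option autoImplicit false

namespace Pool.Agent.MP_3a8a48_gt.Cov

open MeasureTheory Set Metric Filter Topology
open scoped RealInnerProductSpace

variable {m : ℕ}

theorem area_Tot {s : Set (E m)} {f : E m → E m} {f' : E m → E m →L[ℝ] E m}
    (hs : MeasurableSet s) (hf' : ∀ x ∈ s, HasFDerivWithinAt f (f' x) s x) (hf : InjOn f s)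
    (hfin : volume (f '' s) ≠ ⊤) (hnn : ∀ x ∈ s, 0 ≤ (f' x).det) :
    IntegrableOn (fun x => (f' x).det) s ∧
      (volume (f '' s)).toReal = ∫ x in s, (f' x).det := by
  have heq : EqOn (fun x => |(f' x).det| • (1 : ℝ)) (fun x => (f' x).det) s := fun x hx => by
    simp only [smul_eq_mul, mul_one, abs_of_nonneg (hnn x hx)]
  constructor
  · have h1 := (integrableOn_image_iff_integrableOn_abs_det_fderiv_smul volume hs hf' hf
      (fun _ => (1 : ℝ))).1 (integrableOn_const hfin)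
    exact h1.congr_fun heq hs
  · have h1 := integral_image_eq_integral_abs_det_fderiv_smul volume hs hf' hf
      (fun _ => (1 : ℝ))
    rw [setIntegral_congr_fun hs heq] at h1
    rw [← h1]
    simp [Measure.real]

theorem isOpen_Out (P : E m →L[ℝ] E m) : IsOpen (Out P) :=
  (isOpen_lt (f := fun y => ‖y - P y‖) (by fun_prop) continuous_const).inter
    (isOpen_lt continuous_const continuous_norm)

theorem Pos.conj {P A : E m →L[ℝ] E m} (hA : Pos A) (hP : Prj P) : Pos (P * A * P) := by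
  refine ⟨fun v w => ?_, fun v => ?_⟩
  · change ⟪P (A (P v)), w⟫ = ⟪v, P (A (P w))⟫
    rw [hP.symm, hA.symm, hP.symm]
  · change 0 ≤ ⟪P (A (P v)), v⟫
    rw [hP.symm]
    exact hA.nn _

theorem pos_one : Pos (1 : E m →L[ℝ] E m) := ⟨fun _ _ => rfl, fun _ => real_inner_self_nonneg⟩

theorem Pos.add_smul {A B : E m →L[ℝ] E m} (hA : Pos A) (hB : Pos B) {t : ℝ} (ht : 0 ≤ t) :
    Pos (A + t • B) := by
  refine ⟨fun v w => ?_, fun v => ?_⟩
  · simp only [add_apply, smul_apply, inner_add_left,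
      inner_add_right, real_inner_smul_left, real_inner_smul_right, hA.symm, hB.symm]
  · simp only [add_apply, smul_apply, inner_add_left,
      real_inner_smul_left]
    exact add_nonneg (hA.nn v) (mul_nonneg ht (hB.nn v))

theorem Pl.nonneg {p : ℝ → ℝ} {c : ℕ → ℝ} (h : Pl m p c) (hc : ∀ k, 0 ≤ c k) {t : ℝ}
    (ht : 0 < t) : 0 ≤ p t := by
  rw [h t ht]
  exact Finset.sum_nonneg fun k _ => mul_nonneg (hc k) (pow_nonneg ht.le k)

theorem det_block_Tot (hA : SAlg) {P H M : E m →L[ℝ] E m} (hP : Prj P)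
    (hM : ∀ v, M v - P (M v) = v - P v) {t : ℝ} (ht : t ≠ 0) :
    (P * H + t • M).det = (P * H * P + t • (P * M * P + (1 - P))).det := by
  rw [hA.block m P (P * H + t • M) t hP ht]
  · congr 1
    ext1 v
    simp only [add_apply, smul_apply,
      mul_apply_eq_comp, map_add, map_smul, hP.idem, smul_add]
    abel
  · intro v
    simp only [add_apply, smul_apply,
      mul_apply_eq_comp, map_add, map_smul, hP.idem]
    rw [← hM v, smul_sub]
    abel

theorem norm_out_Tot {P : E m →L[ℝ] E m} (hP : Prj P) {y : E m} (hy : y ∈ Out P) :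
    ‖y - P y + sc P y • P y‖ = 1 := by
  have h1 := hP.norm_sq y
  have h2 : ‖y - P y‖ ^ 2 < 1 := by
    have := hy.1
    nlinarith [norm_nonneg (y - P y)]
  have h3 : 1 < ‖y‖ ^ 2 := by
    have := hy.2
    nlinarith
  have h4 : 0 < ‖P y‖ ^ 2 := by linarith
  have h5 : sc P y ^ 2 = (1 - ‖y - P y‖ ^ 2) / ‖P y‖ ^ 2 :=
    Real.sq_sqrt (div_nonneg (by linarith) h4.le)
  have h6 : ‖y - P y + sc P y • P y‖ ^ 2 = 1 := by
    rw [norm_add_sq_real, real_inner_smul_right, real_inner_comm, hP.inner_sub, norm_smul, mul_pow,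
      Real.norm_eq_abs, sq_abs, h5, div_mul_cancel₀ _ h4.ne']
    ring
  exact (pow_eq_one_iff_of_nonneg (norm_nonneg _) two_ne_zero).1 h6

theorem sTot (hA : SAlg) (hD : SDer) (hS : SSurj) (hI : SInj) : STot := by
  intro m K δ ψ g H P hK hs hP
  have hone : ∀ v : E m, (1 : E m →L[ℝ] E m) v - P ((1 : E m →L[ℝ] E m) v) = v - P v :=
    fun _ => rfl
  have hP1 : Pos (P * 1 * P + (1 - P)) := by
    have : P * 1 * P + (1 - P) = 1 := by
      ext1 v
      simp [hP.idem]
    rw [this]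
    exact pos_one
  have hIn : ∀ y, ∃ c : ℕ → ℝ, (∀ k, 0 ≤ c k) ∧ Pl m (Di P (H y)) c := by
    intro y
    obtain ⟨c, hc, h⟩ := hA.nn m _ _ ((hs.pos y).conj hP) hP1
    exact ⟨c, hc, fun t ht => (det_block_Tot hA hP hone ht.ne').trans (h t ht)⟩
  have hPg : ∀ y, HasFDerivAt (fun z => P (g z)) (P * H y) y := fun y =>
    P.hasFDerivAt.comp y (hs.der y)
  have hFo : ∀ y ∈ Out P, ∃ M : E m →L[ℝ] E m, (∀ v, M v - P (M v) = v - P v) ∧
      Pos (P * M * P + (1 - P)) ∧ ∀ t, HasFDerivAt (Fo P g t) (P * H y + t • M) y := by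
    intro y hy
    obtain ⟨M, h1, h2, h3⟩ := hD m P hP y hy
    exact ⟨M, h2, h3, fun t => (hPg y).add (h1.const_smul t)⟩
  have hOut : ∀ y ∈ Out P, ∃ c : ℕ → ℝ, (∀ k, 0 ≤ c k) ∧ Pl m (Do P g y) c := by
    intro y hy
    obtain ⟨M, h1, h2, h3⟩ := hFo y hy
    obtain ⟨c, hc, h⟩ := hA.nn m _ _ ((hs.pos y).conj hP) h2
    refine ⟨c, hc, fun t ht => ?_⟩
    rw [Do, (h3 t).fderiv]
    exact (det_block_Tot hA hP h1 ht.ne').trans (h t ht)
  have hOm := (isOpen_Out P).measurableSet
  refine ⟨hIn, hOut, hOm, fun t ht => ?_⟩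
  obtain ⟨hinj, hinj2⟩ := hI m K δ ψ g H P t hs hP ht
  have hC := hK.image P
  have hTc : IsCompact (cthickening t (P '' K)) := hC.cpt.cthickening
  have hsub1 : Fi P g t '' closedBall 0 1 ⊆ cthickening t (P '' K) := by
    rintro _ ⟨y, hy, rfl⟩
    refine mem_cthickening_of_dist_le _ (P (g y)) t _ ⟨_, hs.mem y, rfl⟩ ?_
    rw [mem_closedBall_zero_iff] at hy
    rw [dist_eq_norm, Fi, add_sub_cancel_left, norm_smul, Real.norm_of_nonneg ht.le]
    nlinarith
  have hsub2 : Fo P g t '' Out P ⊆ cthickening t (P '' K) := by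
    rintro _ ⟨y, hy, rfl⟩
    refine mem_cthickening_of_dist_le _ (P (g y)) t _ ⟨_, hs.mem y, rfl⟩ ?_
    rw [dist_eq_norm, Fo, add_sub_cancel_left, norm_smul, Real.norm_of_nonneg ht.le,
      norm_out_Tot hP hy, mul_one]
  have hfin : ∀ A, A ⊆ cthickening t (P '' K) → volume A ≠ ⊤ := fun A hA' =>
    ((measure_mono hA').trans_lt hTc.measure_lt_top).ne
  have hFi : ∀ y, HasFDerivAt (Fi P g t) (P * H y + t • 1) y := fun y =>
    (hPg y).add ((hasFDerivAt_id y).const_smul t)
  obtain ⟨i1, e1⟩ := area_Tot (f' := fun y => P * H y + t • 1) measurableSet_closedBall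
    (fun y _ => (hFi y).hasFDerivWithinAt) hinj.injOn (hfin _ hsub1)
    (fun y _ => by
      obtain ⟨c, hc, h⟩ := hIn y
      exact h.nonneg hc ht)
  set s : Set (E m) := Out P ∩ {y | Do P g y t ≠ 0} with hsdef
  have hmeas : Measurable fun y => Do P g y t :=
    ContinuousLinearMap.continuous_det.measurable.comp (measurable_fderiv ℝ (Fo P g t))
  have hsm : MeasurableSet s := hOm.inter (hmeas (measurableSet_singleton 0).compl)
  have hdiff : ∀ y ∈ Out P, HasFDerivAt (Fo P g t) (fderiv ℝ (Fo P g t) y) y := by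
    intro y hy
    obtain ⟨M, -, -, h3⟩ := hFo y hy
    exact (h3 t).differentiableAt.hasFDerivAt
  have hgood : ∀ y ∈ s, (∀ z ∈ Out P, Fo P g t z = Fo P g t y → z = y) ∧
      ∀ z ∈ closedBall (0 : E m) 1, Fi P g t z ≠ Fo P g t y := by
    intro y hy
    obtain ⟨M, h1, h2, h3⟩ := hFo y hy.1
    refine hinj2 y hy.1 _ (h3 t) fun v hv hPv h0 => hy.2 ?_
    rw [Do, (h3 t).fderiv, det_block_Tot hA hP h1 ht.ne']
    refine hA.ker m _ v (((hs.pos y).conj hP).add_smul h2 ht.le) hv ?_
    rw [← h0]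
    simp only [add_apply, smul_apply,
      mul_apply_eq_comp, sub_apply, one_apply_eq_self,
      hPv, sub_self, add_zero, inner_add_left, real_inner_smul_left, hP.symm]
  obtain ⟨i2, e2⟩ := area_Tot (f' := fun y => fderiv ℝ (Fo P g t) y) hsm
    (fun y hy => (hdiff y hy.1).hasFDerivWithinAt)
    (fun y hy z hz h => (hgood z hz).1 y hy.1 h)
    (hfin _ ((image_mono inter_subset_left).trans hsub2))
    (fun y hy => by
      obtain ⟨c, hc, h⟩ := hOut y hy.1
      exact h.nonneg hc ht)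
  have hzero : ∀ y ∈ Out P \ s, Do P g y t = 0 := fun y hy => by
    by_contra h
    exact hy.2 ⟨hy.1, h⟩
  have hnull : volume (Fo P g t '' (Out P \ s)) = 0 :=
    addHaar_image_eq_zero_of_det_fderivWithin_eq_zero volume
      (fun y hy => (hdiff y hy.1).hasFDerivWithinAt) hzero
  have hdisj : Disjoint (Fo P g t '' s) (Fi P g t '' closedBall 0 1) := by
    rw [Set.disjoint_left]
    rintro _ ⟨y, hy, rfl⟩ ⟨z, hz, h⟩
    exact (hgood y hy).2 z hz h
  have hmi : MeasurableSet (Fi P g t '' closedBall 0 1) :=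
    ((isCompact_closedBall 0 1).image
      (continuous_iff_continuousAt.2 fun y => (hFi y).continuousAt)).measurableSet
  have hvol : volume (cthickening t (P '' K)) =
      volume (Fo P g t '' s) + volume (Fi P g t '' closedBall 0 1) := by
    rw [← measure_union hdisj hmi]
    refine le_antisymm ?_ (measure_mono (union_subset
      ((image_mono inter_subset_left).trans hsub2) hsub1))
    rw [← measure_interior_of_null_frontier
      ((hC.conv.cthickening t).addHaar_frontier volume)]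
    have hcov : interior (cthickening t (P '' K)) ⊆
        (Fo P g t '' s ∪ Fi P g t '' closedBall 0 1) ∪ Fo P g t '' (Out P \ s) := by
      intro X hX
      rcases hS m K δ ψ g H P t hK hs hP ht X hX with ⟨y, hy, h⟩ | ⟨y, hy, h⟩
      · exact Or.inl (Or.inr ⟨y, hy, h⟩)
      · by_cases hys : y ∈ s
        · exact Or.inl (Or.inl ⟨y, hys, h⟩)
        · exact Or.inr ⟨y, ⟨hy, hys⟩, h⟩
    refine (measure_mono hcov).trans ((measure_union_le _ _).trans ?_)
    rw [hnull, add_zero]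
  refine ⟨i1, i2.of_forall_sdiff_eq_zero hOm hzero, e1, ?_⟩
  rw [pv, hvol, ENNReal.toReal_add (hfin _ ((image_mono inter_subset_left).trans hsub2))
    (hfin _ hsub1), e1, e2, add_comm,
    setIntegral_eq_of_subset_of_forall_sdiff_eq_zero hOm inter_subset_left hzero]
  rfl

/-- The linear combination of values that gives a coefficient. -/
noncomputable def cf (L : Fin (m + 1) → ℝ) (p : ℝ → ℝ) : ℝ := ∑ i, L i * p ((i : ℕ) + 1)

theorem node_pos (i : Fin (m + 1)) : (0 : ℝ) < (i : ℕ) + 1 := by positivity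

theorem integral_cf {L : Fin (m + 1) → ℝ} {D : E m → ℝ → ℝ} {A : Set (E m)}
    (h : ∀ t, 0 < t → IntegrableOn (fun y => D y t) A) :
    IntegrableOn (fun y => cf L (D y)) A ∧
      ∫ y in A, cf L (D y) = cf L fun t => ∫ y in A, D y t := by
  have hi : ∀ i ∈ (Finset.univ : Finset (Fin (m + 1))),
      Integrable (fun y => L i * D y ((i : ℕ) + 1)) (volume.restrict A) := fun i _ =>
    (h _ (node_pos i)).const_mul _
  refine ⟨integrable_finsetSum _ hi, ?_⟩
  unfold cf
  rw [integral_finsetSum _ hi]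
  simp only [integral_const_mul]

theorem inner_cover {K : Set (E m)} {δ : ℝ} {ψ : E m → ℝ} {g : E m → E m}
    {H : E m → E m →L[ℝ] E m} (hS : SSurj) (hK : CK K) (hs : Sm K δ ψ g H) (hδ : 0 < δ) {t : ℝ}
    (ht : 2 * δ ≤ t) : cthickening (t - 2 * δ) K ⊆ Fi 1 g t '' closedBall 0 1 := by
  intro X hX
  have ht0 : 0 < t := by linarith
  have h1 : ((1 : E m →L[ℝ] E m) : E m → E m) '' K = K := by simp
  have hX' : X ∈ interior (cthickening t (((1 : E m →L[ℝ] E m) : E m → E m) '' K)) := by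
    rw [h1]
    exact thickening_subset_interior_cthickening t K
      (cthickening_subset_thickening' ht0 (by linarith) K hX)
  rcases hS m K δ ψ g H 1 t hK hs prj_one ht0 X hX' with h | ⟨y, hy, h⟩
  · exact h
  exfalso
  rw [hK.cpt.cthickening_eq_biUnion_closedBall (by linarith)] at hX
  obtain ⟨k, hk, hXk⟩ := mem_iUnion₂.1 hX
  rw [mem_closedBall, dist_eq_norm] at hXk
  have h2 := norm_out_Tot prj_one hy
  simp only [one_apply_eq_self, sub_self, zero_add, norm_smul, Real.norm_eq_abs] at h2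
  rw [abs_of_nonneg (show 0 ≤ sc 1 y from Real.sqrt_nonneg _)] at h2
  have h3 : ⟪X, y⟫ = ⟪g y, y⟫ + t * ‖y‖ := by
    rw [← h, Fo]
    simp only [one_apply_eq_self, sub_self, zero_add, inner_add_left, real_inner_smul_left,
      real_inner_self_eq_norm_sq]
    linear_combination (t * ‖y‖) * h2
  have h4 := hs.low2 y k hk
  have h5 := real_inner_le_norm (X - k) y
  rw [inner_sub_left] at h5
  have h6 := mul_le_mul_of_nonneg_right hXk (norm_nonneg y)
  have h7 := hy.2
  nlinarith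

theorem sCore (hC : SCf) (hM : SSmooth) (hS : SSurj) (hT : STot) : SCore := by
  intro m ι _ P w k hk hP hw hpt K hK a b ha hb
  obtain ⟨L, hL⟩ := hC m
  have hcf : ∀ (p : ℝ → ℝ) (c : ℕ → ℝ), Pl m p c → cf (L k) p = c k := fun p c h =>
    (hL p c h k hk).symm
  have h1K : ((1 : E m →L[ℝ] E m) : E m → E m) '' K = K := by simp
  have main : ∀ δ : ℝ, 0 < δ → 2 * δ ≤ 1 → a k ≤ ∑ i, w i * b i k +
      ∑ i : Fin (m + 1), |L k i| * (pv K ((i : ℕ) + 1) - pv K ((i : ℕ) + 1 - 2 * δ)) := by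
    intro δ hδ hδ1
    obtain ⟨ψ, g, H, hs⟩ := hM m K hK δ hδ
    have key : ∀ (Q : E m →L[ℝ] E m), Prj Q → ∀ c, Pl m (pv (Q '' K)) c →
        IntegrableOn (fun y => cf (L k) (Di Q (H y))) (closedBall 0 1) ∧
          ∫ y in closedBall 0 1, cf (L k) (Di Q (H y)) ≤ c k := by
      intro Q hQ c hc
      obtain ⟨-, h2, h3, h4⟩ := hT m K δ ψ g H Q hK hs hQ
      obtain ⟨i1, e1⟩ := integral_cf (L := L k) (D := fun y => Di Q (H y)) fun t ht => (h4 t ht).1
      obtain ⟨-, e2⟩ := integral_cf (L := L k) (D := Do Q g) fun t ht => (h4 t ht).2.1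
      refine ⟨i1, ?_⟩
      have h5 : 0 ≤ ∫ y in Out Q, cf (L k) (Do Q g y) := by
        refine setIntegral_nonneg h3 fun y hy => ?_
        obtain ⟨c', hc', h⟩ := h2 y hy
        rw [hcf _ _ h]
        exact hc' k
      have h6 : c k = (∫ y in closedBall 0 1, cf (L k) (Di Q (H y))) +
          ∫ y in Out Q, cf (L k) (Do Q g y) := by
        rw [e1, e2, ← hcf _ _ hc]
        unfold cf
        rw [← Finset.sum_add_distrib]
        refine Finset.sum_congr rfl fun i _ => ?_
        rw [(h4 _ (node_pos i)).2.2.2, mul_add]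
      linarith
    obtain ⟨g1, g2, g3, g4⟩ := hT m K δ ψ g H 1 hK hs prj_one
    obtain ⟨i0, e0⟩ := integral_cf (L := L k) (D := fun y => Di 1 (H y)) fun t ht => (g4 t ht).1
    have hi : ∀ i ∈ (Finset.univ : Finset ι), Integrable
        (fun y => w i * cf (L k) (Di (P i) (H y))) (volume.restrict (closedBall 0 1)) :=
      fun i _ => (key _ (hP i) _ (hb i)).1.const_mul _
    have s1 : ∫ y in closedBall 0 1, cf (L k) (Di 1 (H y)) ≤ ∑ i, w i * b i k := by
      refine (integral_mono i0 (integrable_finsetSum _ hi) fun y => ?_).trans ?_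
      · obtain ⟨c0, -, h0⟩ := g1 y
        choose c _ hc using fun i => (hT m K δ ψ g H (P i) hK hs (hP i)).1 y
        simp only [hcf _ _ h0, fun i => hcf _ _ (hc i)]
        exact hpt _ (hs.pos y) c0 c h0 hc
      · rw [integral_finsetSum _ hi]
        refine Finset.sum_le_sum fun i _ => ?_
        rw [integral_const_mul]
        exact mul_le_mul_of_nonneg_left (key _ (hP i) _ (hb i)).2 (hw i)
    refine le_trans ?_ (add_le_add s1 le_rfl)
    rw [e0, ← hcf _ _ ha]
    unfold cf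
    rw [← Finset.sum_add_distrib]
    refine Finset.sum_le_sum fun i _ => ?_
    obtain ⟨-, -, e1, e2⟩ := g4 _ (node_pos i)
    rw [h1K] at e2
    have u1 : 0 ≤ ∫ y in Out 1, Do 1 g y ((i : ℕ) + 1) := by
      refine setIntegral_nonneg g3 fun y hy => ?_
      obtain ⟨c', hc', h⟩ := g2 y hy
      exact h.nonneg hc' (node_pos i)
    have u2 : pv K ((i : ℕ) + 1 - 2 * δ) ≤ ∫ y in closedBall 0 1, Di 1 (H y) ((i : ℕ) + 1) := by
      rw [← e1]
      have hg : Continuous g := continuous_iff_continuousAt.2 fun y => (hs.der y).continuousAt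
      have hc : Continuous (Fi 1 g ((i : ℕ) + 1)) := by
        unfold Fi
        fun_prop
      refine ENNReal.toReal_mono ((isCompact_closedBall 0 1).image hc).measure_lt_top.ne
        (measure_mono (inner_cover hS hK hs hδ ?_))
      linarith [(Nat.cast_nonneg (i : ℕ) : (0 : ℝ) ≤ (i : ℕ))]
    have u3 := le_abs_self (L k i)
    have u4 := abs_nonneg (L k i)
    have u5 : L k i * ∫ y in Out 1, Do 1 g y ((i : ℕ) + 1) ≤
        |L k i| * ∫ y in Out 1, Do 1 g y ((i : ℕ) + 1) := mul_le_mul_of_nonneg_right u3 u1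
    have u6 : |L k i| * ∫ y in Out 1, Do 1 g y ((i : ℕ) + 1) ≤
        |L k i| * (pv K ((i : ℕ) + 1) - pv K ((i : ℕ) + 1 - 2 * δ)) :=
      mul_le_mul_of_nonneg_left (by linarith) u4
    simp only
    rw [e2, mul_add]
    rw [e2] at u6
    linarith
  have hlim : Tendsto (fun δ : ℝ => ∑ i, w i * b i k +
      ∑ i : Fin (m + 1), |L k i| * (pv K ((i : ℕ) + 1) - pv K ((i : ℕ) + 1 - 2 * δ)))
      (𝓝[>] 0) (𝓝 (∑ i, w i * b i k)) := by
    have hc : Continuous fun δ : ℝ => ∑ i, w i * b i k + ∑ i : Fin (m + 1), |L k i| *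
        (pv K ((i : ℕ) + 1) -
          ∑ j ∈ Finset.range (m + 1), a j * (((i : ℕ) : ℝ) + 1 - 2 * δ) ^ j) := by fun_prop
    have h0 := (hc.tendsto 0).mono_left (nhdsWithin_le_nhds (s := Ioi 0))
    simp only [mul_zero, sub_zero, ← ha _ (node_pos _), sub_self, Finset.sum_const_zero,
      add_zero] at h0
    refine h0.congr' ?_
    filter_upwards [Ioo_mem_nhdsGT (show (0 : ℝ) < 1 / 2 by norm_num)] with δ hδ
    congr 1
    refine Finset.sum_congr rfl fun i _ => ?_
    rw [ha (((i : ℕ) : ℝ) + 1 - 2 * δ)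
      (by linarith [hδ.2, (Nat.cast_nonneg (i : ℕ) : (0 : ℝ) ≤ (i : ℕ))])]
  refine ge_of_tendsto hlim ?_
  filter_upwards [Ioo_mem_nhdsGT (show (0 : ℝ) < 1 / 2 by norm_num)] with δ hδ
  exact main δ hδ.1 (by linarith [hδ.2])

end Pool.Agent.MP_3a8a48_gt.Cov

end

section
set_option autoImplicit false

namespace Pool.Agent.MP_3a8a48_gt.Cov

open MeasureTheory Set Metric
open scoped RealInnerProductSpace

/-- Volume of the unit ball. -/
noncomputable def om (k : ℕ) : ℝ := (volume (ball (0 : EuclideanSpace ℝ (Fin k)) 1)).toReal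

theorem om_pos (k : ℕ) : 0 < om k :=
  ENNReal.toReal_pos (measure_ball_pos _ _ one_pos).ne' measure_ball_lt_top.ne

theorem prj_star {m : ℕ} (F : Submodule ℝ (E m)) : Prj F.starProjection :=
  ⟨fun v w => F.inner_starProjection_left_eq_right v w, fun v =>
    Submodule.starProjection_eq_self_iff.2 (F.starProjection_apply_mem v)⟩

theorem fin_main (hC : SCf) (hS : SStein) (hK : SCore) (hCo : SCoord) (hSu : SSub) (hX : SExt)
    (hN : SNec) (m : ℕ) :
    ∃ V : ℕ → Set (E m) → ℝ,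
      (∀ K : Set (E m), IsCompact K → Convex ℝ K → K.Nonempty → ∀ t : ℝ, 0 ≤ t →
        (volume (cthickening t K)).toReal =
          ∑ j ∈ Finset.range (m + 1), om (m - j) * V j K * t ^ (m - j)) ∧
      ∀ n : ℕ, n ≤ m →
        (∀ c : Finset (Fin m) → ℝ, (∀ S, 0 ≤ c S) →
          List.TFAE
            [∀ K : Set (E m), IsCompact K → Convex ℝ K → K.Nonempty →
              V n K ≤ ∑ S, c S * V n (pS S '' K),
            ∀ K : Set (E m), IsCompact K → Convex ℝ K → (interior K).Nonempty →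
              V n K ≤ ∑ S, c S * V n (pS S '' K),
            ∀ I : Finset (Fin m), I.card = n → 1 ≤ ∑ S with I ⊆ S, c S]) ∧
        ∀ (N : ℕ) (F : Fin N → Submodule ℝ (E m)) (c : Fin N → ℝ), (∀ i, 0 ≤ c i) →
          (∀ v : Fin n → E m, Orthonormal ℝ v →
            1 ≤ ∑ i, c i * (Matrix.gram ℝ fun a => (F i).starProjection (v a)).det) →
          ∀ K : Set (E m), IsCompact K → Convex ℝ K → K.Nonempty →
            V n K ≤ ∑ i, c i * V n ((F i).starProjection '' K) := by
  classical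
  choose! a ha h0 using hS m
  obtain ⟨L, hL⟩ := hC m
  have huniq : ∀ K, CK K → ∀ b, Pl m (pv K) b → ∀ k, k ≤ m → b k = a K k := fun K hK b hb k hk =>
    (hL _ _ hb k hk).trans (hL _ _ (ha K hK) k hk).symm
  have conv : ∀ (ι : Type) [Fintype ι] (P : ι → E m →L[ℝ] E m) (w : ι → ℝ) (n : ℕ) (K : Set (E m)),
      CK K → (StW P w (m - n) K ↔ a K (m - n) / om (m - n) ≤
        ∑ i, w i * (a (P i '' K) (m - n) / om (m - n))) := by
    intro ι _ P w n K hK'
    simp only [← mul_div_assoc]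
    rw [← Finset.sum_div, div_le_div_iff_of_pos_right (om_pos _)]
    constructor
    · exact fun h => h _ _ (ha K hK') fun i => ha _ (hK'.image (P i))
    · intro h b b' hb hb'
      rw [huniq K hK' b hb _ (Nat.sub_le m n)]
      refine h.trans (le_of_eq (Finset.sum_congr rfl fun i _ => ?_))
      rw [huniq _ (hK'.image (P i)) _ (hb' i) _ (Nat.sub_le m n)]
  refine ⟨fun j K => a K (m - j) / om (m - j), fun K h1 h2 h3 t ht => ?_, fun n hn =>
    ⟨fun c hc => ?_, fun N F c hc hv K h1 h2 h3 => ?_⟩⟩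
  · have e : ∑ j ∈ Finset.range (m + 1), om (m - j) * (a K (m - j) / om (m - j)) * t ^ (m - j) =
        ∑ k ∈ Finset.range (m + 1), a K k * t ^ k := by
      rw [← Finset.sum_range_reflect (fun k => a K k * t ^ k)]
      refine Finset.sum_congr rfl fun j _ => ?_
      rw [mul_div_cancel₀ _ (om_pos _).ne', Nat.add_sub_cancel]
    rw [e]
    rcases ht.eq_or_lt with rfl | ht'
    · rw [Finset.sum_range_succ']
      simpa [pv] using h0 K ⟨h1, h2, h3⟩
    · exact ha K ⟨h1, h2, h3⟩ t ht'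
  · tfae_have 1 → 2 := fun h K h1 h2 h3 => h K h1 h2 (h3.mono interior_subset)
    tfae_have 2 → 3 := fun h => hN m n c hn (hX m _ pS c (m - n) (Nat.sub_le m n) prj_pS
      fun K hK' hi => (conv _ pS c n K hK').2 (h K hK'.cpt hK'.conv hi))
    tfae_have 3 → 1 := fun h K h1 h2 h3 => (conv _ pS c n K ⟨h1, h2, h3⟩).1
      (hK m _ pS c (m - n) (Nat.sub_le m n) prj_pS hc (hCo m n c hn hc h) K ⟨h1, h2, h3⟩)
    tfae_finish
  · exact (conv _ (fun i => (F i).starProjection) c n K ⟨h1, h2, h3⟩).1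
      (hK m _ _ c (m - n) (Nat.sub_le m n) (fun i => prj_star (F i)) hc
        (hSu m n _ _ c hn (fun i => prj_star (F i)) hv) K ⟨h1, h2, h3⟩)

end Pool.Agent.MP_3a8a48_gt.Cov

end

namespace Pool.Agent.MP_3a8a48_gt.Cov

open MeasureTheory Set Metric

theorem sTot' : STot := sTot sAlg sDer sSurj sInj

theorem sStein' : SStein := sStein sCf sSmooth sTot'

theorem main (m : ℕ) :
    ∃ V : ℕ → Set (E m) → ℝ,
      (∀ K : Set (E m), IsCompact K → Convex ℝ K → K.Nonempty → ∀ t : ℝ, 0 ≤ t →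
        (volume (cthickening t K)).toReal =
          ∑ j ∈ Finset.range (m + 1), om (m - j) * V j K * t ^ (m - j)) ∧
      ∀ n : ℕ, n ≤ m → ∀ c : Finset (Fin m) → ℝ, (∀ S, 0 ≤ c S) →
        ((∀ K : Set (E m), IsCompact K → Convex ℝ K → (interior K).Nonempty →
          V n K ≤ ∑ S, c S * V n (pS S '' K)) ↔
        ∀ I : Finset (Fin m), I.card = n → 1 ≤ ∑ S with I ⊆ S, c S) := by
  obtain ⟨V, h1, h2⟩ := fin_main sCf sStein' (sCore sCf sSmooth sSurj sTot') (sCoord sExp)
    (sSub sExp) (sExt sCf sStein') (sNec sStein') m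
  exact ⟨V, h1, fun n hn c hc => ((h2 n hn).1 c hc).out 1 2⟩

end Pool.Agent.MP_3a8a48_gt.Cov
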