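import Pool.Agent.MP_3a8a48_gt.Cov.Stm

section
set_option autoImplicit false

namespace Pool.Agent.MP_3a8a48_gt.Cov

open MeasureTheory Set Metric
open scoped RealInnerProductSpace

theorem supp_Smooth {m : ℕ} {K : Set (E m)} (hK : CK K) : ∃ (h : E m → ℝ) (R : ℝ), 0 < R ∧
    (∀ y, ∀ k ∈ K, ⟪k, y⟫ ≤ h y) ∧ (∀ y, ∃ k ∈ K, h y = ⟪k, y⟫) ∧ ∀ k ∈ K, ‖k‖ ≤ R := by
  have h1 : ∀ y : E m, ∃ k ∈ K, IsMaxOn (fun k => ⟪k, y⟫) K k := fun y =>
    hK.cpt.exists_isMaxOn hK.ne (by fun_prop)
  choose k hk hk' using h1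
  obtain ⟨R, hR, h2⟩ := hK.cpt.isBounded.exists_pos_norm_le
  exact ⟨fun y => ⟪k y, y⟫, R, hR, fun y x hx => hk' y hx, fun y => ⟨k y, hk y, rfl⟩, h2⟩

theorem slope_Smooth {f : ℝ → ℝ} {a b : ℝ} (hf : HasDerivAt f a 0)
    (h : ∀ s, 0 < s → s < 1 → f s - f 0 ≤ s * b) : a ≤ b := by
  refine le_of_tendsto hf.tendsto_slope_zero_right ?_
  filter_upwards [Ioo_mem_nhdsGT (zero_lt_one' ℝ)] with s hs
  rw [zero_add, smul_eq_mul, inv_mul_le_iff₀ hs.1]
  exact h s hs.1 hs.2

theorem line_Smooth {m : ℕ} (y v : E m) : HasDerivAt (fun s : ℝ => y + s • v) v 0 := by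
  simpa using ((hasDerivAt_id (0 : ℝ)).smul_const v).const_add y

theorem moll_Smooth {m : ℕ} {h : E m → ℝ} {R δ : ℝ} (hR : 0 < R) (hδ : 0 < δ)
    (hL : ∀ y z, h y - h z ≤ R * ‖y - z‖) (ha : ∀ y v, h (y + v) ≤ h y + h v)
    (hc : ∀ y z (s : ℝ), 0 < s → s < 1 → h (y + s • (z - y)) ≤ (1 - s) * h y + s * h z) :
    ∃ ψ : E m → ℝ, ContDiff ℝ 2 ψ ∧ (∀ y, |ψ y - h y| ≤ δ) ∧ (∀ y v, ψ (y + v) ≤ ψ y + h v) ∧
      ∀ y z (s : ℝ), 0 < s → s < 1 → ψ (y + s • (z - y)) ≤ (1 - s) * ψ y + s * ψ z := by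
  have hd : ∀ y z, dist (h y) (h z) ≤ R * dist y z := fun y z => by
    rw [Real.dist_eq, dist_eq_norm, abs_le]
    have := hL z y
    rw [norm_sub_rev] at this
    exact ⟨by linarith, hL y z⟩
  have hC : Continuous h := (LipschitzWith.of_dist_le' hd).continuous
  have h0 : 0 < δ / R := div_pos hδ hR
  let φ : ContDiffBump (0 : E m) := ⟨δ / R / 2, δ / R, by linarith, by linarith⟩
  have hI : ∀ y : E m, Integrable fun z => φ.normed volume z * h (y - z) := fun y =>
    (φ.continuous_normed.mul (hC.comp (continuous_const.sub continuous_id))).integrable_of_hasCompactSupport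
      φ.hasCompactSupport_normed.mul_right
  have e : ∀ y, convolution (φ.normed volume) h (ContinuousLinearMap.lsmul ℝ ℝ) volume y =
      ∫ z, φ.normed volume z * h (y - z) := fun y => rfl
  refine ⟨convolution (φ.normed volume) h (ContinuousLinearMap.lsmul ℝ ℝ) volume,
    φ.hasCompactSupport_normed.contDiff_convolution_left _ φ.contDiff_normed
      hC.locallyIntegrable, fun y => ?_, fun y v => ?_, fun y z s s0 s1 => ?_⟩
  · rw [← Real.dist_eq]
    refine φ.dist_normed_convolution_le hC.aestronglyMeasurable fun x hx => (hd x y).trans ?_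
    have h1 : dist x y < δ / R := hx
    rw [lt_div_iff₀ hR] at h1
    linarith
  · have h1 : h v = ∫ z, φ.normed volume z * h v := by
      rw [integral_mul_const, φ.integral_normed, one_mul]
    rw [e, e, h1, ← integral_add (hI y) (φ.integrable_normed.mul_const _)]
    refine integral_mono (hI _) ((hI y).add (φ.integrable_normed.mul_const _)) fun z => ?_
    have := mul_le_mul_of_nonneg_left (ha (y - z) v) (φ.nonneg_normed (μ := volume) z)
    rw [show y - z + v = y + v - z by abel] at this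
    simp only
    linarith
  · rw [e, e, e, ← integral_const_mul, ← integral_const_mul,
      ← integral_add ((hI y).const_mul _) ((hI z).const_mul _)]
    refine integral_mono (hI _) (((hI y).const_mul _).add ((hI z).const_mul _)) fun x => ?_
    have := mul_le_mul_of_nonneg_left (hc (y - x) (z - x) s s0 s1)
      (φ.nonneg_normed (μ := volume) x)
    rw [show y - x + s • (z - x - (y - x)) = y + s • (z - y) - x by
      rw [sub_sub_sub_cancel_right]; abel] at this
    simp only
    linarith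

theorem sSmooth : SSmooth := by
  intro m K hK δ hδ
  obtain ⟨h, R, hR, h1, h2, h3⟩ := supp_Smooth hK
  obtain ⟨ψ, c1, c2, c3, c4⟩ := moll_Smooth (h := h) hR hδ
    (fun y z => by
      obtain ⟨k, hk, e⟩ := h2 y
      have a1 := h1 z k hk
      have a2 := real_inner_le_norm k (y - z)
      have a3 := mul_le_mul_of_nonneg_right (h3 k hk) (norm_nonneg (y - z))
      rw [inner_sub_right] at a2
      linarith)
    (fun y v => by
      obtain ⟨k, hk, e⟩ := h2 (y + v)
      rw [e, inner_add_right]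
      exact add_le_add (h1 y k hk) (h1 v k hk))
    (fun y z s s0 s1 => by
      obtain ⟨k, hk, e⟩ := h2 (y + s • (z - y))
      rw [e, inner_add_right, inner_smul_right, inner_sub_right]
      nlinarith [h1 y k hk, h1 z k hk])
  let L : (E m →L[ℝ] ℝ) →L[ℝ] E m :=
    (InnerProductSpace.toDual ℝ (E m)).symm.toContinuousLinearEquiv.toContinuousLinearMap
  have hL : ∀ f : E m →L[ℝ] ℝ, innerSL ℝ (L f) = f := fun f => by
    ext v
    exact InnerProductSpace.toDual_symm_apply (𝕜 := ℝ) (E := E m) (x := v) (y := f)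
  have d1 : ContDiff ℝ 1 fun y => L (fderiv ℝ ψ y) :=
    L.contDiff.comp (c1.fderiv_right (by norm_num))
  obtain ⟨g, hg⟩ : ∃ g, g = fun y => L (fderiv ℝ ψ y) := ⟨_, rfl⟩
  have g1 : ∀ y, HasFDerivAt ψ (innerSL ℝ (g y)) y := fun y => by
    rw [hg, hL]
    exact (c1.differentiable (by norm_num) y).hasFDerivAt
  have g2 : ∀ y, HasFDerivAt g (fderiv ℝ g y) y := fun y =>
    ((hg ▸ d1).differentiable (by norm_num) y).hasFDerivAt
  have tan : ∀ y z, ⟪g y, z - y⟫ ≤ ψ z - ψ y := fun y z => by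
    have a1 : HasDerivAt (fun s : ℝ => ψ (y + s • (z - y))) (innerSL ℝ (g y) (z - y)) 0 :=
      HasFDerivAt.comp_hasDerivAt_of_eq (0 : ℝ) (g1 y) (line_Smooth y (z - y)) (by simp)
    refine slope_Smooth a1 fun s s0 s1 => ?_
    have := c4 y z s s0 s1
    simp only [zero_smul, add_zero]
    linarith
  have mono : ∀ y z, 0 ≤ ⟪g y - g z, y - z⟫ := fun y z => by
    have a1 := tan y z
    have a2 := tan z y
    rw [← neg_sub y z, inner_neg_right] at a1
    rw [inner_sub_left]
    linarith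
  have low : ∀ y, ∀ k ∈ K, ⟪k, y⟫ - δ ≤ ψ y := fun y k hk => by
    linarith [h1 y k hk, (abs_le.1 (c2 y)).1]
  refine ⟨ψ, g, fderiv ℝ g, g1, g2, fun y => ⟨fun v w => ?_, fun v => ?_⟩, mono, fun y => ?_, low,
    fun y k hk => ?_⟩
  · have := second_derivative_symmetric g1
      ((innerSL ℝ (E := E m)).hasFDerivAt.comp y (g2 y)) v w
    rw [real_inner_comm (fderiv ℝ g y w) v]
    exact this
  · have a1 : HasDerivAt (fun s : ℝ => g (y + s • v)) (fderiv ℝ g y v) 0 :=
      HasFDerivAt.comp_hasDerivAt_of_eq (0 : ℝ) (g2 y) (line_Smooth y v) (by simp)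
    have a2 := (a1.inner ℝ (hasDerivAt_const (0 : ℝ) v)).neg
    simp only [inner_zero_right, zero_add] at a2
    refine neg_nonpos.1 (slope_Smooth a2 fun s s0 _ => ?_)
    have a3 := mono (y + s • v) y
    rw [add_sub_cancel_left, inner_smul_right, inner_sub_left] at a3
    have a4 := nonneg_of_mul_nonneg_right a3 s0
    simp only [Pi.neg_apply, zero_smul, add_zero]
    linarith
  · by_contra hn
    obtain ⟨f, u, a1, a2⟩ := geometric_hahn_banach_closed_point hK.conv hK.cpt.isClosed hn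
    obtain ⟨k, hk, e⟩ := h2 (L f)
    have a3 := tan y (y + L f)
    have a4 := c3 y (L f)
    have a5 : ∀ x, ⟪x, L f⟫ = f x := fun x => by
      rw [real_inner_comm]
      exact congrArg (· x) (hL f)
    rw [add_sub_cancel_left, a5] at a3
    rw [e, a5] at a4
    linarith [a1 k hk]
  · have a1 := tan y 0
    obtain ⟨k0, -, e⟩ := h2 0
    rw [inner_zero_right] at e
    rw [zero_sub, inner_neg_right] at a1
    linarith [low y k hk, (abs_le.1 (c2 0)).2]

end Pool.Agent.MP_3a8a48_gt.Cov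

end

section
set_option autoImplicit false

namespace Pool.Agent.MP_3a8a48_gt.Cov

open MeasureTheory Set Metric
open scoped RealInnerProductSpace

theorem sExp : SExp := by
  intro m Q a d
  let D := (Matrix.detRowAlternating : (Fin m → ℝ) [⋀^Fin m]→ₗ[ℝ] ℝ)
  have e0 : (Matrix.diagonal a * Q + Matrix.diagonal d).det =
      D ((fun i => a i • Q.row i) + fun i => d i • (1 : Matrix (Fin m) (Fin m) ℝ).row i) := by
    change Matrix.det _ = Matrix.det (Matrix.of _)
    congr 1
    ext i j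
    simp [Matrix.diagonal_mul, Matrix.one_apply, Matrix.diagonal_apply]
  rw [e0, D.map_add_univ]
  refine Finset.sum_congr rfl fun s _ => ?_
  have h : s.piecewise (fun i => a i • Q.row i)
      (fun i => d i • (1 : Matrix (Fin m) (Fin m) ℝ).row i) =
      fun i => s.piecewise a d i • s.piecewise Q.row (1 : Matrix (Fin m) (Fin m) ℝ).row i := by
    funext i
    by_cases hi : i ∈ s <;> simp [Finset.piecewise, hi]
  rw [h, D.map_smul_univ, Finset.prod_piecewise, ← Matrix.det_piecewise_one_eq_submatrix_det,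
    Finset.univ_inter, ← Finset.compl_eq_univ_sdiff, smul_eq_mul]
  rfl

theorem pos_Alg {m : ℕ} {A : E m →L[ℝ] E m} (h : Pos A) : (A : E m →ₗ[ℝ] E m).IsPositive :=
  ⟨fun v w => h.symm v w, fun v => by simpa using h.nn v⟩

theorem nn_Alg (m : ℕ) (A M : E m →L[ℝ] E m) (hA : Pos A) (hM : Pos M) :
    ∃ c : ℕ → ℝ, (∀ k, 0 ≤ c k) ∧ Pl m (fun t => (A + t • M).det) c := by
  have hM' := pos_Alg hM
  have hn : Module.finrank ℝ (E m) = m := by simp
  let b := hM'.isSymmetric.eigenvectorBasis hn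
  let lam := hM'.isSymmetric.eigenvalues hn
  have hl : ∀ i, 0 ≤ lam i := fun i => hM'.nonneg_eigenvalues hn i
  let Q := LinearMap.toMatrix b.toBasis b.toBasis (A : E m →ₗ[ℝ] E m)
  have hQ : Q.PosSemidef := (LinearMap.posSemidef_toMatrix_iff b).2 (pos_Alg hA)
  have hD : LinearMap.toMatrix b.toBasis b.toBasis (M : E m →ₗ[ℝ] E m) = Matrix.diagonal lam :=
    hM'.isSymmetric.toMatrix_eigenvectorBasis hn
  let u : Finset (Fin m) → ℝ := fun s => (∏ i ∈ sᶜ, lam i) *
    (Q.submatrix (Subtype.val : s → Fin m) (Subtype.val : s → Fin m)).det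
  have hu : ∀ s, 0 ≤ u s := fun s =>
    mul_nonneg (Finset.prod_nonneg fun i _ => hl i) (hQ.submatrix _).det_nonneg
  refine ⟨fun k => ∑ s with (sᶜ).card = k, u s, fun k => Finset.sum_nonneg fun s _ => hu s,
    fun t _ => ?_⟩
  have e1 : (A + t • M).det =
      (Matrix.diagonal (fun _ => (1 : ℝ)) * Q + Matrix.diagonal fun i => t * lam i).det := by
    rw [ContinuousLinearMap.det, ← LinearMap.det_toMatrix b.toBasis,
      ContinuousLinearMap.toLinearMap_add, ContinuousLinearMap.toLinearMap_smul, map_add,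
      map_smul, hD, Matrix.diagonal_one, Matrix.one_mul,
      ← Matrix.diagonal_smul]
    rfl
  simp only
  rw [e1, sExp m Q, ← Finset.sum_fiberwise_of_maps_to (t := Finset.range (m + 1))
    (g := fun s : Finset (Fin m) => (sᶜ).card) fun s _ => Finset.mem_range.2
      (Nat.lt_succ_of_le ((Finset.card_le_univ _).trans (Fintype.card_fin m).le))]
  refine Finset.sum_congr rfl fun k _ => ?_
  rw [Finset.sum_mul]
  refine Finset.sum_congr rfl fun s hs => ?_
  rw [Finset.prod_mul_distrib, Finset.prod_const, Finset.prod_const, (Finset.mem_filter.1 hs).2]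
  simp only [u]
  ring

theorem comm_Alg {m : ℕ} (A B : E m →ₗ[ℝ] E m) :
    LinearMap.det (1 + A * B) = LinearMap.det (1 + B * A) := by
  let b := Module.finBasis ℝ (E m)
  rw [← LinearMap.det_toMatrix b, ← LinearMap.det_toMatrix b, map_add, map_add,
    LinearMap.toMatrix_mul, LinearMap.toMatrix_mul, LinearMap.toMatrix_one,
    Matrix.det_one_add_mul_comm]

theorem block_Alg (m : ℕ) (P T : E m →L[ℝ] E m) (t : ℝ) (hP : Prj P) (ht : t ≠ 0)
    (h : ∀ v, T v - P (T v) = t • (v - P v)) : T.det = (P * T * P + t • (1 - P)).det := by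
  let A : E m →L[ℝ] E m := t⁻¹ • (P * T)
  let B : E m →L[ℝ] E m := 1 - P
  have e1 : (T : E m →ₗ[ℝ] E m) = (1 + (A : E m →ₗ[ℝ] E m) * (B : E m →ₗ[ℝ] E m)) *
      ((P * T * P + t • (1 - P) : E m →L[ℝ] E m) : E m →ₗ[ℝ] E m) := by
    refine LinearMap.ext fun v => ?_
    have a1 : B (P (T (P v)) + t • (v - P v)) = t • (v - P v) := by
      simp [B, hP.idem]
    have a2 : A (t • (v - P v)) = P (T v) - P (T (P v)) := by
      simp [A, smul_smul, ht]
    change T v = (P (T (P v)) + t • (v - P v)) + A (B (P (T (P v)) + t • (v - P v)))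
    rw [a1, a2, ← h v]
    abel
  have e2 : (B : E m →ₗ[ℝ] E m) * (A : E m →ₗ[ℝ] E m) = 0 := by
    refine LinearMap.ext fun v => ?_
    change B (A v) = 0
    simp [A, B, hP.idem]
  rw [ContinuousLinearMap.det, ContinuousLinearMap.det]
  conv_lhs => rw [e1]
  rw [map_mul, comm_Alg, e2, add_zero, map_one, one_mul]

theorem ker_Alg (m : ℕ) (X : E m →L[ℝ] E m) (v : E m) (hX : Pos X) (hv : v ≠ 0)
    (h : ⟪X v, v⟫ = 0) : X.det = 0 := by
  have a1 : ∀ s : ℝ, 0 ≤ ⟪X (X v), X v⟫ * (s * s) + 2 * ⟪X v, X v⟫ * s + 0 := fun s => by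
    have b1 := hX.nn (v + s • X v)
    have b2 : ⟪X (X v), v⟫ = ⟪X v, X v⟫ := hX.symm _ _
    rw [map_add, map_smul, inner_add_left, inner_add_right, inner_add_right, h,
      real_inner_smul_left, real_inner_smul_left, real_inner_smul_right, real_inner_smul_right,
      b2] at b1
    linarith
  have a2 := discrim_le_zero a1
  have a3 : ⟪X v, X v⟫ = 0 := by
    rw [discrim] at a2
    nlinarith [sq_nonneg ⟪X v, X v⟫]
  have a4 : X v = 0 := inner_self_eq_zero.1 a3
  rw [ContinuousLinearMap.det, LinearMap.det_eq_zero_iff_ker_ne_bot]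
  intro hk
  exact hv ((Submodule.eq_bot_iff _).1 hk v a4)

theorem sAlg : SAlg := ⟨nn_Alg, block_Alg, ker_Alg⟩

end Pool.Agent.MP_3a8a48_gt.Cov

end

section
set_option autoImplicit false

namespace Pool.Agent.MP_3a8a48_gt.Cov

open MeasureTheory Set Metric
open scoped RealInnerProductSpace

theorem sc_Der {m : ℕ} {P : E m →L[ℝ] E m} (hP : Prj P) {y : E m} (hy : y ∈ Out P) :
    0 < ‖P y‖ ^ 2 ∧ 0 < sc P y ∧ ∃ D : E m →L[ℝ] ℝ, HasFDerivAt (sc P) D y ∧
      ∀ w, D (P w) = -(sc P y * ⟪P y, P w⟫ / ‖P y‖ ^ 2) := by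
  have h1 : ‖y - P y‖ ^ 2 < 1 := by
    have := hy.1
    nlinarith [norm_nonneg (y - P y)]
  have h2 : 1 < ‖y‖ ^ 2 := by
    have := hy.2
    nlinarith
  have hb : 0 < ‖P y‖ ^ 2 := by linarith [hP.norm_sq y]
  have ha : 0 < 1 - ‖y - P y‖ ^ 2 := by linarith
  have hq : 0 < (1 - ‖y - P y‖ ^ 2) / ‖P y‖ ^ 2 := div_pos ha hb
  have hs : 0 < sc P y := Real.sqrt_pos.2 hq
  have hs2 : sc P y ^ 2 = (1 - ‖y - P y‖ ^ 2) / ‖P y‖ ^ 2 := Real.sq_sqrt hq.le
  have d1 := (((hasFDerivAt_id y).sub P.hasFDerivAt).norm_sq).const_sub 1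
  have d2 := (P.hasFDerivAt (x := y)).norm_sq
  have d3 := (hasDerivAt_inv hb.ne').comp_hasFDerivAt y d2
  have d4 := d1.mul d3
  have d5 := d4.sqrt (by simpa [div_eq_mul_inv] using hq.ne')
  refine ⟨hb, hs, _, d5.congr_of_eventuallyEq (Filter.Eventually.of_forall fun z => ?_),
    fun w => ?_⟩
  · simp [sc, div_eq_mul_inv]
  · have e : √((1 - ‖y - P y‖ ^ 2) * (‖P y‖ ^ 2)⁻¹) = sc P y := by
      simp [sc, div_eq_mul_inv]
    have e2 : 1 - ‖y - P y‖ ^ 2 = sc P y ^ 2 * ‖P y‖ ^ 2 := by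
      rw [hs2, div_mul_cancel₀ _ hb.ne']
    simp only [smul_apply, add_apply,
      neg_apply, ContinuousLinearMap.comp_apply,
      sub_apply, ContinuousLinearMap.id_apply, hP.idem, sub_self, map_zero,
      smul_zero, neg_zero, add_zero, Pi.mul_apply, Function.comp_apply, Pi.sub_apply, id,
      smul_eq_mul, innerSL_apply_apply, e, mul_zero, nsmul_eq_mul, Nat.cast_ofNat]
    have hn : ‖P y‖ ≠ 0 := fun h => by simp [h] at hb
    rw [e2]
    field_simp

theorem sDer : SDer := by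
  intro m P hP y hy
  obtain ⟨hb, hs, D, hD, hDw⟩ := sc_Der hP hy
  have d := ((hasFDerivAt_id y).sub P.hasFDerivAt).add (hD.smul P.hasFDerivAt)
  refine ⟨_, d, fun v => ?_, ?_⟩
  · simp [hP.idem]
  · have e : ∀ w, (P * (ContinuousLinearMap.id ℝ (E m) - P + (sc P y • P + D.smulRight (P y))) * P +
        (1 - P)) w = sc P y • P w - (sc P y * ⟪P y, P w⟫ / ‖P y‖ ^ 2) • P y + (w - P w) := by
      intro w
      simp [hP.idem, hDw, sub_eq_add_neg]
    have i1 : ∀ v w, ⟪P v, w⟫ = ⟪P v, P w⟫ := fun v w => by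
      have := hP.inner_sub v w
      rw [inner_sub_right] at this
      linarith
    have i2 : ∀ v w, ⟪v, P w⟫ = ⟪P v, P w⟫ := fun v w => by rw [← hP.symm, i1]
    refine ⟨fun v w => ?_, fun v => ?_⟩
    · rw [e, e]
      simp only [inner_add_left, inner_add_right, inner_sub_left, inner_sub_right,
        real_inner_smul_left, real_inner_smul_right]
      rw [i1 v w, i1 y w, i2 v w, i2 v y, real_inner_comm (P y) (P v)]
      ring
    · rw [e]
      simp only [inner_add_left, inner_sub_left, real_inner_smul_left]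
      rw [i1 v v, i1 y v, real_inner_self_eq_norm_sq, real_inner_self_eq_norm_sq]
      have c1 := abs_real_inner_le_norm (P y) (P v)
      have c2 : ⟪P y, P v⟫ ^ 2 ≤ ‖P y‖ ^ 2 * ‖P v‖ ^ 2 := by
        rw [← sq_abs, ← mul_pow]
        exact pow_le_pow_left₀ (abs_nonneg _) c1 2
      have c3 : ⟪P y, P v⟫ ^ 2 / ‖P y‖ ^ 2 ≤ ‖P v‖ ^ 2 := by
        rw [div_le_iff₀ hb]
        linarith
      have c4 := mul_le_mul_of_nonneg_left c3 hs.le
      have c5 := hP.norm_sq v
      have c6 : sc P y * ⟪P y, P v⟫ / ‖P y‖ ^ 2 * ⟪P y, P v⟫ =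
          sc P y * (⟪P y, P v⟫ ^ 2 / ‖P y‖ ^ 2) := by ring
      rw [c6]
      nlinarith [sq_nonneg ‖v - P v‖]

end Pool.Agent.MP_3a8a48_gt.Cov

end

section
/-! Injectivity of the two maps. -/

set_option autoImplicit false

namespace Pool.Agent.MP_3a8a48_gt.Cov

open MeasureTheory Set Metric
open scoped RealInnerProductSpace

section

variable {m : ℕ} {P : E m →L[ℝ] E m} {g : E m → E m} {t : ℝ}

/-- The two maps glued together. -/
noncomputable def Fu_Inj (P : E m →L[ℝ] E m) (g : E m → E m) (t : ℝ) (y : E m) : E m :=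
  P (g y) + t • (y - P y + min 1 (sc P y) • P y)

theorem al_Inj (P : E m →L[ℝ] E m) (y : E m) :
    min 1 (sc P y) * ‖P y‖ = min ‖P y‖ √(1 - ‖y - P y‖ ^ 2) := by
  rcases (norm_nonneg (P y)).eq_or_lt with h | h
  · rw [← h, mul_zero, min_eq_left (Real.sqrt_nonneg _)]
  · rw [min_mul_of_nonneg _ _ h.le, one_mul, sc, Real.sqrt_div' _ (sq_nonneg _),
      Real.sqrt_sq h.le, div_mul_cancel₀ _ h.ne']

theorem in_Inj (hP : Prj P) {y : E m} (hy : y ∈ closedBall (0 : E m) 1) :
    Fu_Inj P g t y = Fi P g t y := by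
  have h1 : ‖y‖ ^ 2 ≤ 1 := pow_le_one₀ (norm_nonneg _) (mem_closedBall_zero_iff.mp hy)
  have h2 := hP.norm_sq y
  have h3 := al_Inj P y
  rw [min_eq_left (Real.le_sqrt_of_sq_le (by linarith))] at h3
  have h4 : min 1 (sc P y) • P y = P y := by
    by_cases h : P y = 0
    · rw [h, smul_zero]
    · rw [mul_left_eq_self₀.mp h3 |>.resolve_right (norm_ne_zero_iff.mpr h), one_smul]
  rw [Fu_Inj, Fi, h4, sub_add_cancel]

theorem out_Inj (hP : Prj P) {y : E m} (hy : y ∈ Out P) : Fu_Inj P g t y = Fo P g t y := by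
  have h1 : 1 ≤ ‖y‖ ^ 2 := one_le_pow₀ hy.2.le
  have h2 := hP.norm_sq y
  have h3 : sc P y ≤ 1 :=
    Real.sqrt_le_one.mpr (div_le_one_of_le₀ (by linarith) (sq_nonneg _))
  rw [Fu_Inj, Fo, min_eq_right h3]

theorem fib_Inj (hP : Prj P) (y : E m) :
    Fu_Inj P g t y - P (Fu_Inj P g t y) = t • (y - P y) := by
  simp only [Fu_Inj, map_add, map_smul, map_sub, hP.idem]
  module

theorem mono_Inj (hP : Prj P) (hg : ∀ y z, 0 ≤ ⟪g y - g z, y - z⟫) (ht : 0 < t) {a b : E m}
    (h : a - P a = b - P b) : 0 ≤ ⟪Fu_Inj P g t a - Fu_Inj P g t b, a - b⟫ := by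
  have e1 : a - b = P a - P b := by linear_combination (norm := module) h
  have e2 : Fu_Inj P g t a - Fu_Inj P g t b =
      P (g a - g b) + t • (min 1 (sc P a) • P a - min 1 (sc P b) • P b) := by
    simp only [Fu_Inj, map_sub, h]
    module
  rw [e2, inner_add_left, hP.symm, map_sub, ← e1, real_inner_smul_left]
  refine add_nonneg (hg a b) (mul_nonneg ht.le ?_)
  have a0 : 0 ≤ min 1 (sc P a) := le_min zero_le_one (Real.sqrt_nonneg _)
  have b0 : 0 ≤ min 1 (sc P b) := le_min zero_le_one (Real.sqrt_nonneg _)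
  have a1 := al_Inj P a
  have b1 := al_Inj P b
  rw [h] at a1
  rw [e1, inner_sub_left, inner_sub_right, inner_sub_right, real_inner_smul_left,
    real_inner_smul_left, real_inner_smul_left, real_inner_smul_left, real_inner_self_eq_norm_sq,
    real_inner_self_eq_norm_sq]
  have c1 := mul_le_mul_of_nonneg_left (real_inner_le_norm (P a) (P b)) a0
  have c2 := mul_le_mul_of_nonneg_left (real_inner_le_norm (P b) (P a)) b0
  have c3 : 0 ≤ (min 1 (sc P a) * ‖P a‖ - min 1 (sc P b) * ‖P b‖) * (‖P a‖ - ‖P b‖) := by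
    rw [a1, b1]
    rcases le_total ‖P a‖ ‖P b‖ with k | k
    · exact mul_nonneg_of_nonpos_of_nonpos (sub_nonpos.mpr (min_le_min_right _ k))
        (sub_nonpos.mpr k)
    · exact mul_nonneg (sub_nonneg.mpr (min_le_min_right _ k)) (sub_nonneg.mpr k)
  nlinarith

theorem key_Inj (hP : Prj P) (hg : ∀ y z, 0 ≤ ⟪g y - g z, y - z⟫) (ht : 0 < t) {y z : E m}
    (hy : y ∈ Out P) {T : E m →L[ℝ] E m} (hT : HasFDerivAt (Fo P g t) T y)
    (hv : ∀ v, v ≠ 0 → P v = v → ⟪T v, v⟫ ≠ 0) (h : Fu_Inj P g t z = Fu_Inj P g t y) :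
    z = y := by
  by_contra hne
  have e0 : z - P z = y - P y := by
    refine smul_right_injective _ ht.ne' ?_
    show t • (z - P z) = t • (y - P y)
    rw [← fib_Inj (g := g) hP, ← fib_Inj (g := g) hP, h]
  obtain ⟨v, rfl⟩ : ∃ v, z = y + v := ⟨z - y, by abel⟩
  have hPv : P v = v := by
    rw [map_add] at e0
    linear_combination (norm := module) -e0
  refine hv v (fun h0 => hne (by rw [h0, add_zero])) hPv ?_
  have hf : ∀ s : ℝ, y + s • v - P (y + s • v) = y - P y := fun s => by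
    rw [map_add, map_smul, hPv]
    abel
  have hc : ∀ s ∈ Ioo (0 : ℝ) 1, ⟪Fu_Inj P g t (y + s • v), v⟫ = ⟪Fu_Inj P g t y, v⟫ := by
    intro s hs
    have k1 := mono_Inj hP hg ht (hf s)
    have k2 := mono_Inj hP hg ht (e0.trans (hf s).symm)
    rw [add_sub_cancel_left, real_inner_smul_right, inner_sub_left] at k1
    rw [show y + v - (y + s • v) = (1 - s) • v by module, real_inner_smul_right, inner_sub_left,
      h] at k2
    have k4 := (mul_nonneg_iff_of_pos_left hs.1).mp k1
    have k5 := (mul_nonneg_iff_of_pos_left (sub_pos.mpr hs.2)).mp k2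
    linarith
  have hl : HasDerivAt (fun s : ℝ => y + s • v) v 0 := by
    simpa using ((hasDerivAt_id (0 : ℝ)).smul_const v).const_add y
  have hT' : HasFDerivAt (Fo P g t) T (y + (0 : ℝ) • v) := by simpa using hT
  have d1 : HasDerivAt (fun s : ℝ => ⟪Fo P g t (y + s • v), v⟫) ⟪T v, v⟫ 0 := by
    simpa using (hT'.comp_hasDerivAt (0 : ℝ) hl).inner ℝ (hasDerivAt_const (0 : ℝ) v)
  have ho : IsOpen (Out P) :=
    (isOpen_lt (f := fun y : E m => ‖y - P y‖) (by fun_prop) continuous_const).inter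
      (isOpen_lt continuous_const continuous_norm)
  have ev : ∀ᶠ s in nhds (0 : ℝ), y + s • v ∈ Out P :=
    hl.continuousAt.eventually (ho.mem_nhds (by simpa using hy))
  have d2 : HasDerivWithinAt (fun s : ℝ => ⟪Fo P g t (y + s • v), v⟫) 0 (Ioi 0) 0 := by
    refine (hasDerivWithinAt_const (0 : ℝ) (Ioi 0) ⟪Fo P g t y, v⟫).congr_of_eventuallyEq ?_
      (by simp)
    filter_upwards [ev.filter_mono nhdsWithin_le_nhds, Ioo_mem_nhdsGT zero_lt_one] with s s1 s2
    rw [← out_Inj hP s1, hc s s2, out_Inj hP hy]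
  exact (uniqueDiffWithinAt_Ioi (0 : ℝ)).eq_deriv _ d1.hasDerivWithinAt d2

end

theorem sInj : SInj := by
  intro m K δ ψ g H P t hS hP ht
  refine ⟨fun y z h => ?_, fun y hy T hT hv => ⟨fun z hz h => ?_, fun z hz h => ?_⟩⟩
  · have e : P (g y - g z) + t • (y - z) = 0 := by
      unfold Fi at h
      rw [map_sub]
      linear_combination (norm := module) h
    have e1 : P (y - z) = y - z := by
      refine smul_right_injective _ ht.ne' ?_
      have := congrArg P e
      rw [map_add, hP.idem, map_smul, map_zero] at this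
      show t • P (y - z) = t • (y - z)
      linear_combination (norm := module) this - e
    have e2 := congrArg (fun x => ⟪x, y - z⟫) e
    simp only [inner_add_left, inner_zero_left, real_inner_smul_left] at e2
    rw [hP.symm, e1, real_inner_self_eq_norm_sq] at e2
    have e3 : ‖y - z‖ ^ 2 ≤ 0 := by
      by_contra k
      nlinarith [hS.mono y z, mul_pos ht (not_le.mp k)]
    exact sub_eq_zero.mp (norm_eq_zero.mp (pow_eq_zero_iff two_ne_zero |>.mp
      (le_antisymm e3 (sq_nonneg _))))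
  · exact key_Inj hP hS.mono ht hy hT hv (by rw [out_Inj hP hz, out_Inj hP hy, h])
  · have := key_Inj hP hS.mono ht hy hT hv (by rw [in_Inj hP hz, out_Inj hP hy, h])
    rw [this] at hz
    exact absurd hy.2 (not_lt.mpr (mem_closedBall_zero_iff.mp hz))

end Pool.Agent.MP_3a8a48_gt.Cov

end

section
set_option autoImplicit false

namespace Pool.Agent.MP_3a8a48_gt.Cov

open MeasureTheory Set Metric
open scoped RealInnerProductSpace

theorem sCf : SCf := by
  intro m
  let V : Matrix (Fin (m + 1)) (Fin (m + 1)) ℝ := Matrix.vandermonde fun i => ((i : ℕ) : ℝ) + 1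
  have hV : IsUnit V.det := by
    rw [isUnit_iff_ne_zero]
    refine Matrix.det_vandermonde_ne_zero_iff.2 fun i j h => Fin.ext ?_
    exact_mod_cast add_right_cancel h
  refine ⟨fun k i => if h : k < m + 1 then V⁻¹ ⟨k, h⟩ i else 0, fun p c hp k hk => ?_⟩
  have h1 : V.mulVec (fun j => c j) = fun i : Fin (m + 1) => p ((i : ℕ) + 1) := by
    funext i
    rw [hp _ (by positivity), Finset.sum_range]
    simp [V, Matrix.mulVec, dotProduct, Matrix.vandermonde_apply, mul_comm]
  have h2 := congrFun (congrArg V⁻¹.mulVec h1) ⟨k, by omega⟩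
  rw [Matrix.mulVec_mulVec, Matrix.nonsing_inv_mul _ hV, Matrix.one_mulVec] at h2
  simpa [Matrix.mulVec, dotProduct, hk] using h2

theorem coef_Pt {m n : ℕ} (hn : n ≤ m) {p : ℝ → ℝ} {c : ℕ → ℝ} (x : Finset (Fin m) → ℝ)
    (h : ∀ t, 0 < t → p t = ∑ s, x s * t ^ (m - s.card)) (hc : Pl m p c) :
    c (m - n) = ∑ s with s.card = n, x s := by
  have h1 : Pl m p fun k => ∑ s with m - s.card = k, x s := by
    intro t ht
    rw [h t ht, ← Finset.sum_fiberwise_of_maps_to (t := Finset.range (m + 1))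
      (g := fun s : Finset (Fin m) => m - s.card) fun s _ => by simp]
    refine Finset.sum_congr rfl fun k _ => ?_
    rw [Finset.sum_mul]
    exact Finset.sum_congr rfl fun s hs => by rw [(Finset.mem_filter.1 hs).2]
  obtain ⟨L, hL⟩ := sCf m
  rw [hL p c hc _ (Nat.sub_le _ _), ← hL p _ h1 _ (Nat.sub_le _ _)]
  refine Finset.sum_congr (Finset.filter_congr fun s _ => ?_) fun _ _ => rfl
  have := s.card_le_univ
  rw [Fintype.card_fin] at this
  omega

/-- The matrix of an operator. -/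
noncomputable def mat_Pt {m : ℕ} (b : OrthonormalBasis (Fin m) ℝ (E m)) (A : E m →L[ℝ] E m) :
    Matrix (Fin m) (Fin m) ℝ :=
  LinearMap.toMatrix b.toBasis b.toBasis (A : E m →ₗ[ℝ] E m)

theorem mat_apply_Pt {m : ℕ} (b : OrthonormalBasis (Fin m) ℝ (E m)) (A : E m →L[ℝ] E m)
    (i j : Fin m) : mat_Pt b A i j = ⟪b i, A (b j)⟫ := by
  simp [mat_Pt, LinearMap.toMatrix_apply, OrthonormalBasis.repr_apply_apply]

theorem di_Pt {m : ℕ} (b : OrthonormalBasis (Fin m) ℝ (E m)) (P H : E m →L[ℝ] E m) (t : ℝ) :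
    Di P H t = (mat_Pt b P * mat_Pt b H + Matrix.diagonal fun _ => t).det := by
  rw [Di, ContinuousLinearMap.det, ← LinearMap.det_toMatrix b.toBasis]
  congr 1
  rw [mat_Pt, mat_Pt, ← LinearMap.toMatrix_mul, ← Matrix.smul_one_eq_diagonal,
    ← LinearMap.toMatrix_one b.toBasis, ← map_smul, ← map_add]
  rfl

theorem exp_Pt (hE : SExp) {m : ℕ} (Q : Matrix (Fin m) (Fin m) ℝ) (a : Fin m → ℝ) (t : ℝ) :
    (Matrix.diagonal a * Q + Matrix.diagonal fun _ => t).det = ∑ s : Finset (Fin m),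
      ((∏ i ∈ s, a i) * (Q.submatrix (Subtype.val : s → Fin m) (Subtype.val : s → Fin m)).det) *
        t ^ (m - s.card) := by
  rw [hE]
  refine Finset.sum_congr rfl fun s _ => ?_
  rw [Finset.prod_const, Finset.card_compl, Fintype.card_fin]
  ring

theorem sCoord (hE : SExp) : SCoord := by
  intro m n w hn hw hc H hH a b ha hb
  let e := EuclideanSpace.basisFun (Fin m) ℝ
  have hQ : (mat_Pt e H).PosSemidef :=
    (LinearMap.posSemidef_toMatrix_iff e).2 ⟨fun v w => hH.symm v w, fun v => hH.nn v⟩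
  have hS : ∀ S, mat_Pt e (pS S) = Matrix.diagonal fun i => if i ∈ S then 1 else 0 := by
    intro S
    ext i j
    rw [mat_apply_Pt, Matrix.diagonal_apply]
    by_cases h : i = j <;> simp [e, EuclideanSpace.inner_single_left, pS_apply, h]
  have h1 : mat_Pt e 1 = Matrix.diagonal fun _ => 1 := LinearMap.toMatrix_one _
  rw [coef_Pt hn _ (fun t _ => by rw [di_Pt e, h1, exp_Pt hE]) ha]
  have h2 : ∀ S, b S (m - n) = _ := fun S =>
    coef_Pt hn _ (fun t _ => by rw [di_Pt e, hS, exp_Pt hE]) (hb S)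
  simp only [h2, Finset.mul_sum]
  rw [Finset.sum_comm]
  refine Finset.sum_le_sum fun s hs => ?_
  have h3 := (hQ.submatrix (Subtype.val : s → Fin m)).det_nonneg
  have h4 := hc s (Finset.mem_filter.1 hs).2
  simp only [← mul_assoc, ← Finset.sum_mul]
  refine mul_le_mul_of_nonneg_right ?_ h3
  rw [Finset.prod_const_one]
  refine h4.trans (le_of_eq ?_)
  rw [Finset.sum_filter]
  refine Finset.sum_congr rfl fun S _ => ?_
  rw [Finset.prod_boole]
  by_cases h : s ⊆ S
  · rw [if_pos h, if_pos fun i hi => h hi, mul_one]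
  · rw [if_neg h, if_neg fun q => h fun i hi => q i hi, mul_zero]

theorem sSub (hE : SExp) : SSub := by
  intro m n ι _ P w hn hP hc H hH a b ha hb
  have hs : (H : E m →ₗ[ℝ] E m).IsSymmetric := fun v w => hH.symm v w
  have hd : Module.finrank ℝ (E m) = m := by simp
  let e := hs.eigenvectorBasis hd
  let lam := hs.eigenvalues hd
  have he : ∀ i, H (e i) = lam i • e i := fun i => hs.apply_eigenvectorBasis hd i
  have hl : ∀ i, 0 ≤ lam i := fun i => by
    have := hH.nn (e i)
    rwa [he, real_inner_smul_left, real_inner_self_eq_norm_sq, e.orthonormal.1, one_pow,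
      mul_one] at this
  have hm : mat_Pt e H = Matrix.diagonal lam := by
    ext i j
    rw [mat_apply_Pt, he, real_inner_smul_right, Matrix.diagonal_apply,
      orthonormal_iff_ite.1 e.orthonormal]
    by_cases h : i = j <;> simp [h]
  have key : ∀ Q : E m →L[ℝ] E m, Prj Q → ∀ c, Pl m (Di Q H) c → c (m - n) =
      ∑ s : Finset (Fin m) with s.card = n, (∏ i ∈ s, lam i) *
        ((mat_Pt e Q).submatrix (Subtype.val : s → Fin m) (Subtype.val : s → Fin m)).det := by
    intro Q hQ c hc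
    refine coef_Pt hn _ (fun t _ => ?_) hc
    have hT : (mat_Pt e Q).transpose = mat_Pt e Q := by
      ext i j
      rw [Matrix.transpose_apply, mat_apply_Pt, mat_apply_Pt, ← hQ.symm, real_inner_comm]
    rw [di_Pt e, hm, ← Matrix.det_transpose, Matrix.transpose_add, Matrix.transpose_mul,
      Matrix.diagonal_transpose, Matrix.diagonal_transpose, hT, exp_Pt hE]
  rw [key 1 prj_one a ha]
  simp only [fun i => key (P i) (hP i) _ (hb i), Finset.mul_sum]
  rw [Finset.sum_comm]
  refine Finset.sum_le_sum fun s hs => ?_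
  let f : Fin n ≃ s := (s.equivFinOfCardEq (Finset.mem_filter.1 hs).2).symm
  have h1 := hc (fun a => e (f a)) (e.orthonormal.comp _ (Subtype.val_injective.comp f.injective))
  have h2 : ∀ i, ((mat_Pt e (P i)).submatrix (Subtype.val : s → Fin m)
      (Subtype.val : s → Fin m)).det = (Matrix.gram ℝ fun a => P i (e (f a))).det := by
    intro i
    rw [← Matrix.det_submatrix_equiv_self f]
    congr 1
    ext x y
    simp only [Matrix.submatrix_apply, mat_apply_Pt, Matrix.gram_apply]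
    rw [(hP i).symm, (hP i).idem]
  have h3 : mat_Pt e 1 = 1 := LinearMap.toMatrix_one _
  rw [h3, Matrix.submatrix_one _ Subtype.val_injective, Matrix.det_one]
  simp only [h2, mul_left_comm (w _), ← Finset.mul_sum]
  exact mul_le_mul_of_nonneg_left h1 (Finset.prod_nonneg fun i _ => hl i)

end Pool.Agent.MP_3a8a48_gt.Cov

end
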