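import Mathlib

/-! Covers and intrinsic volumes of projections: definitions and statements of the steps. -/

set_option autoImplicit false

namespace Pool.Agent.MP_3a8a48_gt.Cov

open MeasureTheory Set Metric
open scoped RealInnerProductSpace

/-- Euclidean space. -/
abbrev E (m : ℕ) : Type := EuclideanSpace ℝ (Fin m)

section defs

variable {m : ℕ}

/-- Symmetric nonnegative operators. -/
structure Pos (A : E m →L[ℝ] E m) : Prop where
  symm : ∀ v w, ⟪A v, w⟫ = ⟪v, A w⟫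
  nn : ∀ v, 0 ≤ ⟪A v, v⟫

/-- Orthogonal projections. -/
structure Prj (P : E m →L[ℝ] E m) : Prop where
  symm : ∀ v w, ⟪P v, w⟫ = ⟪v, P w⟫
  idem : ∀ v, P (P v) = P v

/-- On the positive axis `p` is the polynomial of degree at most `m` with coefficients `c`. -/
def Pl (m : ℕ) (p : ℝ → ℝ) (c : ℕ → ℝ) : Prop :=
  ∀ t : ℝ, 0 < t → p t = ∑ k ∈ Finset.range (m + 1), c k * t ^ k

/-- Volume of the parallel body. -/
noncomputable def pv (K : Set (E m)) (t : ℝ) : ℝ := (volume (cthickening t K)).toReal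

/-- Nonempty compact convex sets. -/
structure CK (K : Set (E m)) : Prop where
  cpt : IsCompact K
  conv : Convex ℝ K
  ne : K.Nonempty

/-- A smooth convex function `ψ` close to the support function of `K`, with gradient `g` and
Hessian `H`. -/
structure Sm (K : Set (E m)) (δ : ℝ) (ψ : E m → ℝ) (g : E m → E m)
    (H : E m → E m →L[ℝ] E m) : Prop where
  grad : ∀ y, HasFDerivAt ψ (innerSL ℝ (g y)) y
  der : ∀ y, HasFDerivAt g (H y) y
  pos : ∀ y, Pos (H y)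
  mono : ∀ y z, 0 ≤ ⟪g y - g z, y - z⟫
  mem : ∀ y, g y ∈ K
  low : ∀ y, ∀ k ∈ K, ⟪k, y⟫ - δ ≤ ψ y
  low2 : ∀ y, ∀ k ∈ K, ⟪k, y⟫ - 2 * δ ≤ ⟪g y, y⟫

/-- The outer region. -/
def Out (P : E m →L[ℝ] E m) : Set (E m) := {y | ‖y - P y‖ < 1 ∧ 1 < ‖y‖}

/-- The factor that moves `y` to the unit sphere inside its fibre. -/
noncomputable def sc (P : E m →L[ℝ] E m) (y : E m) : ℝ := √((1 - ‖y - P y‖ ^ 2) / ‖P y‖ ^ 2)

/-- The inner map. -/
noncomputable def Fi (P : E m →L[ℝ] E m) (g : E m → E m) (t : ℝ) (y : E m) : E m :=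
  P (g y) + t • y

/-- The outer map. -/
noncomputable def Fo (P : E m →L[ℝ] E m) (g : E m → E m) (t : ℝ) (y : E m) : E m :=
  P (g y) + t • (y - P y + sc P y • P y)

/-- The determinant of `P H + t`. -/
noncomputable def Di (P H : E m →L[ℝ] E m) (t : ℝ) : ℝ := (P * H + t • 1).det

/-- The Jacobian of the outer map. -/
noncomputable def Do (P : E m →L[ℝ] E m) (g : E m → E m) (y : E m) (t : ℝ) : ℝ :=
  (fderiv ℝ (Fo P g t) y).det

/-- The projection onto a coordinate subspace. -/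
noncomputable def pS (S : Finset (Fin m)) : E m →L[ℝ] E m :=
  LinearMap.toContinuousLinearMap
    { toFun := fun x => WithLp.toLp 2 fun i => if i ∈ S then x i else 0
      map_add' := fun x y => by
        ext i
        by_cases h : i ∈ S <;> simp [h]
      map_smul' := fun a x => by
        ext i
        by_cases h : i ∈ S <;> simp [h] }

theorem pS_eq (S : Finset (Fin m)) (x : E m) :
    pS S x = WithLp.toLp 2 fun i => if i ∈ S then x i else 0 := rfl

theorem pS_apply (S : Finset (Fin m)) (x : E m) (i : Fin m) :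
    pS S x i = if i ∈ S then x i else 0 := rfl

theorem prj_pS (S : Finset (Fin m)) : Prj (pS S) := by
  refine ⟨fun v w => ?_, fun v => ?_⟩
  · simp only [PiLp.inner_apply, pS_apply]
    refine Finset.sum_congr rfl fun i _ => ?_
    by_cases h : i ∈ S <;> simp [h]
  · ext i
    by_cases h : i ∈ S <;> simp [pS_apply, h]

theorem prj_one : Prj (1 : E m →L[ℝ] E m) := ⟨fun _ _ => rfl, fun _ => rfl⟩

theorem Prj.inner_sub {P : E m →L[ℝ] E m} (h : Prj P) (v w : E m) : ⟪P v, w - P w⟫ = 0 := by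
  rw [h.symm, map_sub, h.idem, sub_self, inner_zero_right]

theorem Prj.norm_sq {P : E m →L[ℝ] E m} (h : Prj P) (v : E m) :
    ‖v‖ ^ 2 = ‖P v‖ ^ 2 + ‖v - P v‖ ^ 2 := by
  have h1 := norm_add_sq_real (P v) (v - P v)
  rw [h.inner_sub, add_sub_cancel] at h1
  linarith

theorem CK.image {K : Set (E m)} (h : CK K) (P : E m →L[ℝ] E m) : CK (P '' K) :=
  ⟨h.cpt.image P.continuous, h.conv.linear_image (P : E m →ₗ[ℝ] E m), h.ne.image _⟩

/-- The pointwise inequality between coefficients of determinants. -/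
def PtW {ι : Type} [Fintype ι] (P : ι → E m →L[ℝ] E m) (w : ι → ℝ) (k : ℕ) : Prop :=
  ∀ H : E m →L[ℝ] E m, Pos H → ∀ (a : ℕ → ℝ) (b : ι → ℕ → ℝ), Pl m (Di 1 H) a →
    (∀ i, Pl m (Di (P i) H) (b i)) → a k ≤ ∑ i, w i * b i k

/-- The inequality between Steiner coefficients for the set `K`. -/
def StW {ι : Type} [Fintype ι] (P : ι → E m →L[ℝ] E m) (w : ι → ℝ) (k : ℕ) (K : Set (E m)) :
    Prop :=
  ∀ (a : ℕ → ℝ) (b : ι → ℕ → ℝ), Pl m (pv K) a → (∀ i, Pl m (pv (P i '' K)) (b i)) →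
    a k ≤ ∑ i, w i * b i k

end defs

/-- Coefficients are linear combinations of values. -/
def SCf : Prop :=
  ∀ m : ℕ, ∃ L : ℕ → Fin (m + 1) → ℝ, ∀ (p : ℝ → ℝ) (c : ℕ → ℝ), Pl m p c → ∀ k, k ≤ m →
    c k = ∑ i, L k i * p ((i : ℕ) + 1)

/-- Smoothing of the support function. -/
def SSmooth : Prop :=
  ∀ (m : ℕ) (K : Set (E m)), CK K → ∀ δ : ℝ, 0 < δ → ∃ ψ g H, Sm K δ ψ g H

/-- Expansion of a determinant into principal minors. -/
def SExp : Prop :=
  ∀ (m : ℕ) (Q : Matrix (Fin m) (Fin m) ℝ) (a d : Fin m → ℝ),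
    (Matrix.diagonal a * Q + Matrix.diagonal d).det =
      ∑ s : Finset (Fin m), (∏ i ∈ s, a i) * (∏ i ∈ sᶜ, d i) *
        (Q.submatrix (Subtype.val : s → Fin m) (Subtype.val : s → Fin m)).det

/-- Determinants of operators. -/
structure SAlg : Prop where
  nn : ∀ (m : ℕ) (A M : E m →L[ℝ] E m), Pos A → Pos M →
    ∃ c : ℕ → ℝ, (∀ k, 0 ≤ c k) ∧ Pl m (fun t => (A + t • M).det) c
  block : ∀ (m : ℕ) (P T : E m →L[ℝ] E m) (t : ℝ), Prj P → t ≠ 0 →
    (∀ v, T v - P (T v) = t • (v - P v)) → T.det = (P * T * P + t • (1 - P)).det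
  ker : ∀ (m : ℕ) (X : E m →L[ℝ] E m) (v : E m), Pos X → v ≠ 0 → ⟪X v, v⟫ = 0 → X.det = 0

/-- The derivative of the outer map. -/
def SDer : Prop :=
  ∀ (m : ℕ) (P : E m →L[ℝ] E m), Prj P → ∀ y ∈ Out P, ∃ M : E m →L[ℝ] E m,
    HasFDerivAt (fun z => z - P z + sc P z • P z) M y ∧ (∀ v, M v - P (M v) = v - P v) ∧
      Pos (P * M * P + (1 - P))

/-- The two maps cover the interior of the parallel body. -/
def SSurj : Prop :=
  ∀ (m : ℕ) (K : Set (E m)) (δ : ℝ) (ψ : E m → ℝ) (g : E m → E m) (H : E m → E m →L[ℝ] E m)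
    (P : E m →L[ℝ] E m) (t : ℝ), CK K → Sm K δ ψ g H → Prj P → 0 < t →
    ∀ X ∈ interior (cthickening t (P '' K)),
      (∃ y ∈ closedBall (0 : E m) 1, Fi P g t y = X) ∨ ∃ y ∈ Out P, Fo P g t y = X

/-- Injectivity. -/
def SInj : Prop :=
  ∀ (m : ℕ) (K : Set (E m)) (δ : ℝ) (ψ : E m → ℝ) (g : E m → E m) (H : E m → E m →L[ℝ] E m)
    (P : E m →L[ℝ] E m) (t : ℝ), Sm K δ ψ g H → Prj P → 0 < t →
    Function.Injective (Fi P g t) ∧
    ∀ y ∈ Out P, ∀ T : E m →L[ℝ] E m, HasFDerivAt (Fo P g t) T y →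
      (∀ v, v ≠ 0 → P v = v → ⟪T v, v⟫ ≠ 0) →
      (∀ z ∈ Out P, Fo P g t z = Fo P g t y → z = y) ∧
        ∀ z ∈ closedBall (0 : E m) 1, Fi P g t z ≠ Fo P g t y

/-- The volume of the parallel body as a sum of two integrals. -/
def STot : Prop :=
  ∀ (m : ℕ) (K : Set (E m)) (δ : ℝ) (ψ : E m → ℝ) (g : E m → E m) (H : E m → E m →L[ℝ] E m)
    (P : E m →L[ℝ] E m), CK K → Sm K δ ψ g H → Prj P →
    (∀ y, ∃ c : ℕ → ℝ, (∀ k, 0 ≤ c k) ∧ Pl m (Di P (H y)) c) ∧
    (∀ y ∈ Out P, ∃ c : ℕ → ℝ, (∀ k, 0 ≤ c k) ∧ Pl m (Do P g y) c) ∧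
    MeasurableSet (Out P) ∧
    ∀ t : ℝ, 0 < t →
      IntegrableOn (fun y => Di P (H y) t) (closedBall 0 1) ∧
      IntegrableOn (fun y => Do P g y t) (Out P) ∧
      (volume (Fi P g t '' closedBall 0 1)).toReal = ∫ y in closedBall 0 1, Di P (H y) t ∧
      pv (P '' K) t = (∫ y in closedBall 0 1, Di P (H y) t) + ∫ y in Out P, Do P g y t

/-- From the pointwise inequality to the inequality for Steiner coefficients. -/
def SCore : Prop :=
  ∀ (m : ℕ) (ι : Type) [Fintype ι] (P : ι → E m →L[ℝ] E m) (w : ι → ℝ) (k : ℕ), k ≤ m →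
    (∀ i, Prj (P i)) → (∀ i, 0 ≤ w i) → PtW P w k → ∀ K, CK K → StW P w k K

/-- The pointwise inequality for covers. -/
def SCoord : Prop :=
  ∀ (m n : ℕ) (w : Finset (Fin m) → ℝ), n ≤ m → (∀ S, 0 ≤ w S) →
    (∀ I : Finset (Fin m), I.card = n → 1 ≤ ∑ S with I ⊆ S, w S) → PtW pS w (m - n)

/-- The pointwise inequality for general subspaces. -/
def SSub : Prop :=
  ∀ (m n : ℕ) (ι : Type) [Fintype ι] (P : ι → E m →L[ℝ] E m) (w : ι → ℝ), n ≤ m →
    (∀ i, Prj (P i)) →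
    (∀ v : Fin n → E m, Orthonormal ℝ v →
      1 ≤ ∑ i, w i * (Matrix.gram ℝ fun a => P i (v a)).det) → PtW P w (m - n)

/-- The Steiner formula. -/
def SStein : Prop :=
  ∀ (m : ℕ) (K : Set (E m)), CK K → ∃ a : ℕ → ℝ, Pl m (pv K) a ∧ pv K 0 = a 0

/-- From bodies with interior points to all compact convex sets. -/
def SExt : Prop :=
  ∀ (m : ℕ) (ι : Type) [Fintype ι] (P : ι → E m →L[ℝ] E m) (w : ι → ℝ) (k : ℕ), k ≤ m →
    (∀ i, Prj (P i)) → (∀ K, CK K → (interior K).Nonempty → StW P w k K) →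
    ∀ K, CK K → StW P w k K

/-- The cover condition is necessary. -/
def SNec : Prop :=
  ∀ (m n : ℕ) (w : Finset (Fin m) → ℝ), n ≤ m → (∀ K, CK K → StW pS w (m - n) K) →
    ∀ I : Finset (Fin m), I.card = n → 1 ≤ ∑ S with I ⊆ S, w S

end Pool.Agent.MP_3a8a48_gt.Cov
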